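import Mathlib

set_option autoImplicit false

namespace Pool.Agent.Lib.MP_e43eb1_co

open Finset

/-- Two integer lines on a finite set that are equivalent under a `2`-group at each of the first
`ℓ` times, the first having a much larger `1`-norm of direction. -/
def Gad (ℓ R : ℕ) : Prop :=
  ∃ (Y : Type) (_ : Fintype Y) (G : Type) (_ : Group G) (_ : Finite G) (_ : MulAction G Y) (e : ℕ)
    (xL uL xR uR : Y → ℤ), Nat.card G = 2 ^ e ∧
    (∀ l : ℕ, l < ℓ → ∃ g : G, ∀ y, xR y + l * uR y = xL (g • y) + l * uL (g • y)) ∧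
    ∑ y, uL y = 0 ∧ ∑ y, uR y = 0 ∧ 0 < ∑ y, |uL y| ∧ R * ∑ y, |uR y| ≤ ∑ y, |uL y|

theorem gad_zero (R : ℕ) : Gad 0 R := by
  refine ⟨Bool, inferInstance, Unit, inferInstance, inferInstance,
    { smul := fun _ y => y, one_smul := fun _ => rfl, mul_smul := fun _ _ _ => rfl }, 0, fun _ => 0, fun y => if y then 1 else -1,
    fun _ => 0, fun _ => 0, by simp, by simp, by simp, by simp, by simp, by simp⟩

theorem sum_coord {Y : Type} [Fintype Y] (m : ℕ) (j : Fin (m + 1)) (f : Y → ℤ) :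
    ∑ ω : Fin (m + 1) → Y, f (ω j) = (Fintype.card Y : ℤ) ^ m * ∑ y, f y := by
  rw [← Equiv.sum_comp (Fin.insertNthEquiv (fun _ : Fin (m + 1) => Y) j), Fintype.sum_prod_type]
  simp [Finset.mul_sum]

theorem sum_sq_succ {Y : Type} [Fintype Y] (f : Y → ℤ) (hf : ∑ y, f y = 0) (n : ℕ) :
    ∑ ω : Fin (n + 1) → Y, (∑ j, f (ω j)) ^ 2 =
      (Fintype.card Y : ℤ) ^ n * ∑ y, f y ^ 2 +
        (Fintype.card Y : ℤ) * ∑ ω : Fin n → Y, (∑ j, f (ω j)) ^ 2 := by
  rw [← Equiv.sum_comp (Fin.consEquiv (fun _ : Fin (n + 1) => Y)), Fintype.sum_prod_type]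
  have h1 : ∀ (y : Y) (ω : Fin n → Y),
      (∑ j, f ((Fin.consEquiv (fun _ : Fin (n + 1) => Y)) (y, ω) j)) ^ 2 =
        f y ^ 2 + 2 * f y * (∑ j, f (ω j)) + (∑ j, f (ω j)) ^ 2 := by
    intro y ω
    rw [Fin.sum_univ_succ]
    simp only [Fin.consEquiv_apply, Fin.cons_zero, Fin.cons_succ]
    ring
  simp only [h1, Finset.sum_add_distrib]
  have h2 : ∑ y : Y, ∑ ω : Fin n → Y, 2 * f y * (∑ j, f (ω j)) = 0 := by
    rw [Finset.sum_comm]
    refine Finset.sum_eq_zero fun ω _ => ?_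
    rw [← Finset.sum_mul, ← Finset.mul_sum, hf]
    simp
  rw [h2]
  simp [Finset.mul_sum]

theorem sum_sq {Y : Type} [Fintype Y] (f : Y → ℤ) (hf : ∑ y, f y = 0) (m : ℕ) :
    ∑ ω : Fin (m + 1) → Y, (∑ j, f (ω j)) ^ 2 =
      (m + 1) * (Fintype.card Y : ℤ) ^ m * ∑ y, f y ^ 2 := by
  induction m with
  | zero =>
    rw [sum_sq_succ f hf]
    simp
  | succ m ih =>
    rw [sum_sq_succ f hf, ih]
    push_cast
    ring

/-- A function on `Ω × ℤ/(n+1)` given slice by slice. -/
def sl {Ω : Type} {n : ℕ} (a : Ω → ℤ) (b : Fin n → Ω → ℤ) :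
    Ω × Multiplicative (Fin (n + 1)) → ℤ :=
  fun p => Fin.cases (a p.1) (fun j => b j p.1) (Multiplicative.toAdd p.2)

theorem sl_zero {Ω : Type} {n : ℕ} (a : Ω → ℤ) (b : Fin n → Ω → ℤ) (ω : Ω) :
    sl a b (ω, Multiplicative.ofAdd 0) = a ω := rfl

theorem sl_succ {Ω : Type} {n : ℕ} (a : Ω → ℤ) (b : Fin n → Ω → ℤ) (ω : Ω) (j : Fin n) :
    sl a b (ω, Multiplicative.ofAdd j.succ) = b j ω := rfl

theorem sum_sl {Ω : Type} [Fintype Ω] {n : ℕ} (a : Ω → ℤ) (b : Fin n → Ω → ℤ) (F : ℤ → ℤ) :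
    ∑ p, F (sl a b p) = ∑ ω, F (a ω) + ∑ j, ∑ ω, F (b j ω) := by
  rw [Fintype.sum_prod_type_right, ← Equiv.sum_comp Multiplicative.ofAdd, Fin.sum_univ_succ]
  rfl

theorem abs_bound (θ S : ℤ) : 2 * θ * |S| ≤ S ^ 2 + θ ^ 2 := by
  have := sq_nonneg (|S| - θ)
  rw [← sq_abs S]
  nlinarith

theorem gad_succ {ℓ R : ℕ} (h : Gad ℓ (2 * R)) : Gad (ℓ + 1) R := by
  classical
  obtain ⟨Y, _, G, _, _, _, e, xL, uL, xR, uR, hG, hrel, hsL, hsR, hpos, hratio⟩ := h
  obtain ⟨Q, hQ⟩ : ∃ Q : ℤ, Q = ∑ y, uL y ^ 2 := ⟨_, rfl⟩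
  obtain ⟨N, hN⟩ : ∃ N : ℤ, N = (Fintype.card Y : ℤ) := ⟨_, rfl⟩
  have hN0 : 0 ≤ N := by rw [hN]; positivity
  have hQ1 : 1 ≤ Q := by
    have : ∑ y, |uL y| ≤ Q := by
      rw [hQ]
      refine Finset.sum_le_sum fun y _ => ?_
      rw [← sq_abs]
      exact Int.le_self_sq _
    omega
  obtain ⟨a, m, hm, hbig⟩ : ∃ a m : ℕ, m + 2 = 2 ^ a ∧ (2 * R * Q) ^ 2 * N ≤ (m + 1 : ℤ) := by
    obtain ⟨B, hB⟩ : ∃ B : ℕ, (2 * R * Q) ^ 2 * N ≤ (B : ℤ) := ⟨_, Int.self_le_toNat _⟩
    have h1 : B < 2 ^ B := Nat.lt_two_pow_self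
    refine ⟨B + 1, 2 ^ (B + 1) - 2, by rw [pow_succ]; omega, hB.trans ?_⟩
    have : B ≤ 2 ^ (B + 1) - 2 + 1 := by rw [pow_succ]; omega
    exact_mod_cast this
  let Ls : Y → ℤ := fun y => xL y + ℓ * uL y
  let Rs : Y → ℤ := fun y => xR y + ℓ * uR y
  let st : Fin (m + 1) → (Fin (m + 1) → Y) → ℤ := fun j ω =>
    ∑ j', if j' < j then Ls (ω j') else if j < j' then Rs (ω j') else 0
  refine ⟨(Fin (m + 1) → Y) × Multiplicative (Fin (m + 2)), inferInstance,
    RegularWreathProduct (Fin (m + 1) → G) (Multiplicative (Fin (m + 2))), inferInstance,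
    inferInstance, inferInstance, e * (m + 1) * (m + 2) + a,
    sl (fun ω => ∑ j, xR (ω j)) (fun j ω => xL (ω j) + st j ω),
    sl (fun ω => ∑ j, uR (ω j)) (fun j ω => uL (ω j)),
    sl (fun ω => ∑ j, xL (ω j)) (fun j ω => xR (ω j) + st j ω),
    sl (fun ω => ∑ j, uL (ω j)) (fun j ω => uR (ω j)), ?_, ?_, ?_, ?_, ?_, ?_⟩
  · rw [RegularWreathProduct.card, Nat.card_fun, hG]
    simp only [Nat.card_eq_fintype_card, Fintype.card_multiplicative, Fintype.card_fin]
    rw [pow_add 2, ← hm, pow_mul, pow_mul]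
  · intro l hl
    rcases Nat.lt_succ_iff_lt_or_eq.1 hl with hl | rfl
    · obtain ⟨g, hg⟩ := hrel l hl
      refine ⟨⟨fun i => Fin.cases (motive := fun _ => Fin (m + 1) → G) (fun _ => g⁻¹)
        (fun j => Function.update (1 : Fin (m + 1) → G) j g) (Multiplicative.toAdd i), 1⟩, ?_⟩
      rintro ⟨ω, i⟩
      obtain ⟨i, rfl⟩ := Multiplicative.ofAdd.surjective i
      rw [RegularWreathProduct.smul_def]
      simp only [one_mul, toAdd_ofAdd]
      induction i using Fin.cases with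
      | zero =>
        simp only [sl_zero, Fin.cases_zero, Finset.mul_sum, ← Finset.sum_add_distrib]
        refine Finset.sum_congr rfl fun j _ => ?_
        have := hg (g⁻¹ • ω j)
        rw [smul_inv_smul] at this
        exact this.symm
      | succ j =>
        simp only [sl_succ, Fin.cases_succ]
        have h1 : st j ((Function.update (1 : Fin (m + 1) → G) j g) • ω) = st j ω := by
          refine Finset.sum_congr rfl fun j' _ => ?_
          by_cases hj : j' = j
          · simp [hj]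
          · simp [Pi.smul_apply', hj]
        have h2 : ((Function.update (1 : Fin (m + 1) → G) j g) • ω) j = g • ω j := by
          simp [Pi.smul_apply']
        rw [h1, h2]
        have := hg (ω j)
        linarith
    · let T : ℕ → (Fin (m + 1) → Y) → ℤ := fun k ω =>
        ∑ j : Fin (m + 1), if j.val < k then Ls (ω j) else Rs (ω j)
      have hL : ∀ ω (i : Fin (m + 2)),
          sl (fun ω => ∑ j, xR (ω j)) (fun j ω => xL (ω j) + st j ω) (ω, Multiplicative.ofAdd i) +
          l * sl (fun ω => ∑ j, uR (ω j)) (fun j ω => uL (ω j)) (ω, Multiplicative.ofAdd i) =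
          T i.val ω := by
        intro ω i
        induction i using Fin.cases with
        | zero =>
          simp only [sl_zero, Finset.mul_sum, ← Finset.sum_add_distrib, T, Rs]
          simp
        | succ j =>
          simp only [sl_succ]
          have : T j.succ.val ω = st j ω + ∑ j', if j' = j then Ls (ω j') else 0 := by
            simp only [T, st, ← Finset.sum_add_distrib, Fin.val_succ]
            refine Finset.sum_congr rfl fun j' _ => ?_
            rcases lt_trichotomy j' j with h | h | h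
            · have h' : j'.val < j.val + 1 := by have := Fin.lt_def.1 h; omega
              simp [h, h', h.ne]
            · simp [h]
            · have h' : ¬ j'.val < j.val + 1 := by have := Fin.lt_def.1 h; omega
              simp [h, h', h.ne', h.not_gt]
          rw [this]
          simp only [Finset.sum_ite_eq', Finset.mem_univ, if_true, Ls]
          ring
      refine ⟨⟨1, Multiplicative.ofAdd (-1)⟩, ?_⟩
      rintro ⟨ω, i⟩
      obtain ⟨i, rfl⟩ := Multiplicative.ofAdd.surjective i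
      rw [RegularWreathProduct.smul_def]
      simp only [Pi.one_apply, one_smul, ← ofAdd_add]
      rw [hL, neg_add_eq_sub, Fin.coe_sub_one]
      induction i using Fin.cases with
      | zero =>
        simp only [sl_zero, Finset.mul_sum, ← Finset.sum_add_distrib, T, Ls, if_true]
        refine Finset.sum_congr rfl fun j _ => ?_
        simp [j.isLt]
      | succ j =>
        simp only [sl_succ, Fin.succ_ne_zero, if_false, Fin.val_succ, Nat.add_sub_cancel]
        have : T j.val ω = st j ω + ∑ j', if j' = j then Rs (ω j') else 0 := by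
          simp only [T, st, ← Finset.sum_add_distrib]
          refine Finset.sum_congr rfl fun j' _ => ?_
          rcases lt_trichotomy j' j with h | h | h
          · have h' : j'.val < j.val := Fin.lt_def.1 h
            simp [h, h', h.ne]
          · simp [h]
          · have h' : ¬ j'.val < j.val := by have := Fin.lt_def.1 h; omega
            simp [h, h', h.ne', h.not_gt]
        rw [this]
        simp only [Finset.sum_ite_eq', Finset.mem_univ, if_true, Rs]
        ring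
  · have := sum_sl (fun ω : Fin (m + 1) → Y => ∑ j, uR (ω j)) (fun j ω => uL (ω j)) id
    simp only [id] at this
    rw [this, Finset.sum_comm]
    simp [sum_coord, hsL, hsR]
  · have := sum_sl (fun ω : Fin (m + 1) → Y => ∑ j, uL (ω j)) (fun j ω => uR (ω j)) id
    simp only [id] at this
    rw [this, Finset.sum_comm]
    simp [sum_coord, hsL, hsR]
  · rw [sum_sl _ _ (fun x => |x|)]
    simp only [sum_coord m _ (fun y => |uL y|)]
    have hY : 0 < Fintype.card Y := by
      rcases Nat.eq_zero_or_pos (Fintype.card Y) with h0 | h0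
      · have : IsEmpty Y := Fintype.card_eq_zero_iff.1 h0
        simp at hpos
      · exact h0
    have h1 : 0 ≤ ∑ ω : Fin (m + 1) → Y, |∑ j, uR (ω j)| :=
      Finset.sum_nonneg fun _ _ => abs_nonneg _
    have h2 : 0 < ∑ _j : Fin (m + 1), (Fintype.card Y : ℤ) ^ m * ∑ y, |uL y| :=
      Finset.sum_pos (fun _ _ => by positivity) Finset.univ_nonempty
    omega
  · rw [sum_sl _ _ (fun x => |x|), sum_sl _ _ (fun x => |x|)]
    simp only [sum_coord m _ (fun y => |uL y|), sum_coord m _ (fun y => |uR y|)]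
    simp only [Finset.sum_const, Finset.card_univ, Fintype.card_fin, nsmul_eq_mul, ← hN]
    have h1 : 0 ≤ ∑ ω : Fin (m + 1) → Y, |∑ j, uR (ω j)| :=
      Finset.sum_nonneg fun _ _ => abs_nonneg _
    have h2 : 2 * (2 * R * Q) * ∑ ω : Fin (m + 1) → Y, |∑ j, uL (ω j)| ≤
        (m + 1) * N ^ m * Q + N ^ (m + 1) * (2 * R * Q) ^ 2 := by
      rw [Finset.mul_sum]
      refine (Finset.sum_le_sum fun ω _ => abs_bound _ _).trans (le_of_eq ?_)
      rw [Finset.sum_add_distrib, sum_sq uL hsL, ← hN, ← hQ]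
      simp [hN]
    obtain ⟨W, hW⟩ : ∃ W : ℤ, W = ∑ ω : Fin (m + 1) → Y, |∑ j, uL (ω j)| := ⟨_, rfl⟩
    obtain ⟨β, hβ⟩ : ∃ β : ℤ, β = ∑ y, |uL y| := ⟨_, rfl⟩
    obtain ⟨σ, hσ⟩ : ∃ σ : ℤ, σ = ∑ y, |uR y| := ⟨_, rfl⟩
    rw [← hW] at h2 ⊢
    rw [← hβ, ← hσ] at hratio ⊢
    rw [← hβ] at hpos
    have hP : 0 ≤ N ^ m := pow_nonneg hN0 m
    obtain ⟨P, hPdef⟩ : ∃ P : ℤ, P = N ^ m := ⟨_, rfl⟩
    rw [pow_succ, ← hPdef] at h2
    rw [← hPdef] at hP ⊢
    have h3 : P * N * (2 * R * Q) ^ 2 ≤ P * (m + 1) := by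
      rw [mul_assoc, mul_comm N]
      exact mul_le_mul_of_nonneg_left hbig hP
    have hn : (0 : ℤ) ≤ (m + 1) * P := by positivity
    have h4 : (2 * Q) * (2 * R * W) ≤ (2 * Q) * ((m + 1) * P) := by nlinarith
    have h5 : 2 * R * W ≤ (m + 1) * P := le_of_mul_le_mul_left h4 (by omega)
    push_cast at hratio ⊢
    have h6 : (m + 1) * P * (2 * R * σ) ≤ (m + 1) * P * β := mul_le_mul_of_nonneg_left hratio hn
    have h7 : (m + 1) * P ≤ (m + 1) * P * β := le_mul_of_one_le_right hn (by omega)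
    nlinarith

theorem gad_all (ℓ : ℕ) : ∀ R, Gad ℓ R := by
  induction ℓ with
  | zero => exact gad_zero
  | succ ℓ ih => exact fun R => gad_succ (ih _)

end Pool.Agent.Lib.MP_e43eb1_co
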