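import Mathlib

set_option autoImplicit false

namespace Pool.Agent.Lib.MP_e43eb1_co.Lp

open Finset

/-- Two real lines on a finite set that are equivalent under a `2`-group at each time of `T`,
the first direction having a much larger cost. -/
def Gad (φ : ℝ → ℝ) (T : Finset ℝ) (R : ℝ) : Prop :=
  ∃ (Y : Type) (_ : Fintype Y) (G : Type) (_ : Group G) (_ : Finite G) (_ : MulAction G Y) (e : ℕ)
    (xL uL xR uR : Y → ℝ), Nat.card G = 2 ^ e ∧
    (∀ l ∈ T, ∃ g : G, ∀ y, xR y + l * uR y = xL (g • y) + l * uL (g • y)) ∧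
    ∑ y, uL y = 0 ∧ ∑ y, uR y = 0 ∧ 0 < ∑ y, φ (uL y) ∧ R * ∑ y, φ (uR y) ≤ ∑ y, φ (uL y)

theorem gad_zero (φ : ℝ → ℝ) (h0 : φ 0 = 0) (h1 : 0 < φ 1 + φ (-1)) (R : ℝ) : Gad φ ∅ R := by
  refine ⟨Bool, inferInstance, Unit, inferInstance, inferInstance,
    { smul := fun _ y => y, one_smul := fun _ => rfl, mul_smul := fun _ _ _ => rfl }, 0,
    fun _ => 0, fun y => if y then 1 else -1,
    fun _ => 0, fun _ => 0, by simp, by simp, by simp, by simp, by simpa using h1,
    by simpa [h0] using h1.le⟩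

theorem sum_coord {Y : Type} [Fintype Y] (m : ℕ) (j : Fin (m + 1)) (f : Y → ℝ) :
    ∑ ω : Fin (m + 1) → Y, f (ω j) = (Fintype.card Y : ℝ) ^ m * ∑ y, f y := by
  rw [← Equiv.sum_comp (Fin.insertNthEquiv (fun _ : Fin (m + 1) => Y) j), Fintype.sum_prod_type]
  simp [Finset.mul_sum]

theorem sum_sq_succ {Y : Type} [Fintype Y] (f : Y → ℝ) (hf : ∑ y, f y = 0) (n : ℕ) :
    ∑ ω : Fin (n + 1) → Y, (∑ j, f (ω j)) ^ 2 =
      (Fintype.card Y : ℝ) ^ n * ∑ y, f y ^ 2 +
        (Fintype.card Y : ℝ) * ∑ ω : Fin n → Y, (∑ j, f (ω j)) ^ 2 := by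
  rw [← Equiv.sum_comp (Fin.consEquiv (fun _ : Fin (n + 1) => Y)), Fintype.sum_prod_type]
  have h1 : ∀ (y : Y) (ω : Fin n → Y),
      (∑ j, f ((Fin.consEquiv (fun _ : Fin (n + 1) => Y)) (y, ω) j)) ^ 2 =
        f y ^ 2 + 2 * f y * (∑ j, f (ω j)) + (∑ j, f (ω j)) ^ 2 := by
    intro y ω
    rw [Fin.sum_univ_succ]
    simp only [Fin.consEquiv_apply, Fin.cons_zero, Fin.cons_succ]
    ring
  simp only [h1, Finset.sum_add_distrib]
  have h2 : ∑ y : Y, ∑ ω : Fin n → Y, 2 * f y * (∑ j, f (ω j)) = 0 := by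
    rw [Finset.sum_comm]
    refine Finset.sum_eq_zero fun ω _ => ?_
    rw [← Finset.sum_mul, ← Finset.mul_sum, hf]
    simp
  rw [h2]
  simp [Finset.mul_sum]

theorem sum_sq {Y : Type} [Fintype Y] (f : Y → ℝ) (hf : ∑ y, f y = 0) (m : ℕ) :
    ∑ ω : Fin (m + 1) → Y, (∑ j, f (ω j)) ^ 2 =
      (m + 1) * (Fintype.card Y : ℝ) ^ m * ∑ y, f y ^ 2 := by
  induction m with
  | zero =>
    rw [sum_sq_succ f hf]
    simp
  | succ m ih =>
    rw [sum_sq_succ f hf, ih]
    push_cast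
    ring

/-- A function on `Ω × Z/(n+1)` given slice by slice. -/
def sl {Ω : Type} {n : ℕ} (a : Ω → ℝ) (b : Fin n → Ω → ℝ) :
    Ω × Multiplicative (Fin (n + 1)) → ℝ :=
  fun p => Fin.cases (a p.1) (fun j => b j p.1) (Multiplicative.toAdd p.2)

theorem sl_zero {Ω : Type} {n : ℕ} (a : Ω → ℝ) (b : Fin n → Ω → ℝ) (ω : Ω) :
    sl a b (ω, Multiplicative.ofAdd 0) = a ω := rfl

theorem sl_succ {Ω : Type} {n : ℕ} (a : Ω → ℝ) (b : Fin n → Ω → ℝ) (ω : Ω) (j : Fin n) :
    sl a b (ω, Multiplicative.ofAdd j.succ) = b j ω := rfl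

theorem sum_sl {Ω : Type} [Fintype Ω] {n : ℕ} (a : Ω → ℝ) (b : Fin n → Ω → ℝ) (F : ℝ → ℝ) :
    ∑ p, F (sl a b p) = ∑ ω, F (a ω) + ∑ j, ∑ ω, F (b j ω) := by
  rw [Fintype.sum_prod_type_right, ← Equiv.sum_comp Multiplicative.ofAdd, Fin.sum_univ_succ]
  rfl

theorem gad_succ {φ : ℝ → ℝ} (hφ : ∀ s, 0 ≤ φ s)
    (hsub : ∀ ε : ℝ, 0 < ε → ∃ C : ℝ, 0 ≤ C ∧ ∀ s, φ s ≤ ε * s ^ 2 + C)
    {T₀ : Finset ℝ} {R : ℝ} (hR : 0 < R) (τ : ℝ) (h : Gad φ T₀ (2 * R)) :
    Gad φ (insert τ T₀) R := by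
  classical
  obtain ⟨Y, _, G, _, _, _, e, xL, uL, xR, uR, hG, hrel, hsL, hsR, hpos, hratio⟩ := h
  obtain ⟨Q, hQ⟩ : ∃ Q : ℝ, Q = ∑ y, uL y ^ 2 := ⟨_, rfl⟩
  obtain ⟨N, hN⟩ : ∃ N : ℝ, N = (Fintype.card Y : ℝ) := ⟨_, rfl⟩
  obtain ⟨β, hβ⟩ : ∃ β : ℝ, β = ∑ y, φ (uL y) := ⟨_, rfl⟩
  have hβ0 : 0 < β := hβ ▸ hpos
  have hN0 : 0 ≤ N := by rw [hN]; positivity
  have hQ0 : 0 ≤ Q := by rw [hQ]; positivity
  obtain ⟨C, hC0, hC⟩ := hsub (β / (4 * R * (Q + 1))) (by positivity)
  obtain ⟨a, m, hm, hbig⟩ : ∃ a m : ℕ, m + 2 = 2 ^ a ∧ 4 * R * C * N / β ≤ (m + 1 : ℝ) := by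
    obtain ⟨B, hB⟩ : ∃ B : ℕ, 4 * R * C * N / β ≤ (B : ℝ) := exists_nat_ge _
    have h1 : B < 2 ^ B := Nat.lt_two_pow_self
    refine ⟨B + 1, 2 ^ (B + 1) - 2, by rw [pow_succ]; omega, hB.trans ?_⟩
    have : B ≤ 2 ^ (B + 1) - 2 + 1 := by rw [pow_succ]; omega
    exact_mod_cast this
  let Ls : Y → ℝ := fun y => xL y + τ * uL y
  let Rs : Y → ℝ := fun y => xR y + τ * uR y
  let st : Fin (m + 1) → (Fin (m + 1) → Y) → ℝ := fun j ω =>
    ∑ j', if j' < j then Ls (ω j') else if j < j' then Rs (ω j') else 0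
  refine ⟨(Fin (m + 1) → Y) × Multiplicative (Fin (m + 2)), inferInstance,
    RegularWreathProduct (Fin (m + 1) → G) (Multiplicative (Fin (m + 2))), inferInstance,
    inferInstance, inferInstance, e * (m + 1) * (m + 2) + a,
    sl (fun ω => ∑ j, xR (ω j)) (fun j ω => xL (ω j) + st j ω),
    sl (fun ω => ∑ j, uR (ω j)) (fun j ω => uL (ω j)),
    sl (fun ω => ∑ j, xL (ω j)) (fun j ω => xR (ω j) + st j ω),
    sl (fun ω => ∑ j, uL (ω j)) (fun j ω => uR (ω j)), ?_, ?_, ?_, ?_, ?_, ?_⟩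
  · rw [RegularWreathProduct.card, Nat.card_fun, hG]
    simp only [Nat.card_eq_fintype_card, Fintype.card_multiplicative, Fintype.card_fin]
    rw [pow_add 2, ← hm, pow_mul, pow_mul]
  · intro l hl
    rcases (Finset.mem_insert.1 hl).symm with hl | rfl
    · obtain ⟨g, hg⟩ := hrel l hl
      refine ⟨⟨fun i => Fin.cases (motive := fun _ => Fin (m + 1) → G) (fun _ => g⁻¹)
        (fun j => Function.update (1 : Fin (m + 1) → G) j g) (Multiplicative.toAdd i), 1⟩, ?_⟩
      rintro ⟨ω, i⟩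
      obtain ⟨i, rfl⟩ := Multiplicative.ofAdd.surjective i
      rw [RegularWreathProduct.smul_def]
      simp only [one_mul, toAdd_ofAdd]
      induction i using Fin.cases with
      | zero =>
        simp only [sl_zero, Fin.cases_zero, Finset.mul_sum, ← Finset.sum_add_distrib]
        refine Finset.sum_congr rfl fun j _ => ?_
        have := hg (g⁻¹ • ω j)
        rw [smul_inv_smul] at this
        exact this.symm
      | succ j =>
        simp only [sl_succ, Fin.cases_succ]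
        have h1 : st j ((Function.update (1 : Fin (m + 1) → G) j g) • ω) = st j ω := by
          refine Finset.sum_congr rfl fun j' _ => ?_
          by_cases hj : j' = j
          · simp [hj]
          · simp [Pi.smul_apply', hj]
        have h2 : ((Function.update (1 : Fin (m + 1) → G) j g) • ω) j = g • ω j := by
          simp [Pi.smul_apply']
        rw [h1, h2]
        have := hg (ω j)
        linarith
    · let T : ℕ → (Fin (m + 1) → Y) → ℝ := fun k ω =>
        ∑ j : Fin (m + 1), if j.val < k then Ls (ω j) else Rs (ω j)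
      have hL : ∀ ω (i : Fin (m + 2)),
          sl (fun ω => ∑ j, xR (ω j)) (fun j ω => xL (ω j) + st j ω) (ω, Multiplicative.ofAdd i) +
          l * sl (fun ω => ∑ j, uR (ω j)) (fun j ω => uL (ω j)) (ω, Multiplicative.ofAdd i) =
          T i.val ω := by
        intro ω i
        induction i using Fin.cases with
        | zero =>
          simp only [sl_zero, Finset.mul_sum, ← Finset.sum_add_distrib, T, Rs]
          simp
        | succ j =>
          simp only [sl_succ]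
          have : T j.succ.val ω = st j ω + ∑ j', if j' = j then Ls (ω j') else 0 := by
            simp only [T, st, ← Finset.sum_add_distrib, Fin.val_succ]
            refine Finset.sum_congr rfl fun j' _ => ?_
            rcases lt_trichotomy j' j with h | h | h
            · have h' : j'.val < j.val + 1 := by have := Fin.lt_def.1 h; omega
              simp [h, h', h.ne]
            · simp [h]
            · have h' : ¬ j'.val < j.val + 1 := by have := Fin.lt_def.1 h; omega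
              simp [h, h', h.ne', h.not_gt]
          rw [this]
          simp only [Finset.sum_ite_eq', Finset.mem_univ, if_true, Ls]
          ring
      refine ⟨⟨1, Multiplicative.ofAdd (-1)⟩, ?_⟩
      rintro ⟨ω, i⟩
      obtain ⟨i, rfl⟩ := Multiplicative.ofAdd.surjective i
      rw [RegularWreathProduct.smul_def]
      simp only [Pi.one_apply, one_smul, ← ofAdd_add]
      rw [hL, neg_add_eq_sub, Fin.coe_sub_one]
      induction i using Fin.cases with
      | zero =>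
        simp only [sl_zero, Finset.mul_sum, ← Finset.sum_add_distrib, T, Ls, if_true]
        refine Finset.sum_congr rfl fun j _ => ?_
        simp [j.isLt]
      | succ j =>
        simp only [sl_succ, Fin.succ_ne_zero, if_false, Fin.val_succ, Nat.add_sub_cancel]
        have : T j.val ω = st j ω + ∑ j', if j' = j then Rs (ω j') else 0 := by
          simp only [T, st, ← Finset.sum_add_distrib]
          refine Finset.sum_congr rfl fun j' _ => ?_
          rcases lt_trichotomy j' j with h | h | h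
          · have h' : j'.val < j.val := Fin.lt_def.1 h
            simp [h, h', h.ne]
          · simp [h]
          · have h' : ¬ j'.val < j.val := by have := Fin.lt_def.1 h; omega
            simp [h, h', h.ne', h.not_gt]
        rw [this]
        simp only [Finset.sum_ite_eq', Finset.mem_univ, if_true, Rs]
        ring
  · have := sum_sl (fun ω : Fin (m + 1) → Y => ∑ j, uR (ω j)) (fun j ω => uL (ω j)) id
    simp only [id] at this
    rw [this, Finset.sum_comm]
    simp [sum_coord, hsL, hsR]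
  · have := sum_sl (fun ω : Fin (m + 1) → Y => ∑ j, uL (ω j)) (fun j ω => uR (ω j)) id
    simp only [id] at this
    rw [this, Finset.sum_comm]
    simp [sum_coord, hsL, hsR]
  · rw [sum_sl _ _ φ]
    simp only [sum_coord m _ (fun y => φ (uL y))]
    have hY : 0 < Fintype.card Y := by
      rcases Nat.eq_zero_or_pos (Fintype.card Y) with h0 | h0
      · have : IsEmpty Y := Fintype.card_eq_zero_iff.1 h0
        simp at hpos
      · exact h0
    have h1 : 0 ≤ ∑ ω : Fin (m + 1) → Y, φ (∑ j, uR (ω j)) :=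
      Finset.sum_nonneg fun _ _ => hφ _
    have h2 : 0 < ∑ _j : Fin (m + 1), (Fintype.card Y : ℝ) ^ m * ∑ y, φ (uL y) :=
      Finset.sum_pos (fun _ _ => by positivity) Finset.univ_nonempty
    linarith
  · rw [sum_sl _ _ φ, sum_sl _ _ φ]
    simp only [sum_coord m _ (fun y => φ (uL y)), sum_coord m _ (fun y => φ (uR y))]
    simp only [Finset.sum_const, Finset.card_univ, Fintype.card_fin, nsmul_eq_mul, ← hN]
    have h1 : 0 ≤ ∑ ω : Fin (m + 1) → Y, φ (∑ j, uR (ω j)) :=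
      Finset.sum_nonneg fun _ _ => hφ _
    have h2 : ∑ ω : Fin (m + 1) → Y, φ (∑ j, uL (ω j)) ≤
        β / (4 * R * (Q + 1)) * ((m + 1) * N ^ m * Q) + N ^ (m + 1) * C := by
      refine (Finset.sum_le_sum fun ω _ => hC _).trans (le_of_eq ?_)
      rw [Finset.sum_add_distrib, ← Finset.mul_sum, sum_sq uL hsL, ← hN, ← hQ]
      simp [hN]
    obtain ⟨W, hW⟩ : ∃ W : ℝ, W = ∑ ω : Fin (m + 1) → Y, φ (∑ j, uL (ω j)) := ⟨_, rfl⟩
    obtain ⟨σ, hσ⟩ : ∃ σ : ℝ, σ = ∑ y, φ (uR y) := ⟨_, rfl⟩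
    rw [← hW] at h2 ⊢
    rw [← hβ, ← hσ] at hratio ⊢
    have hP : 0 ≤ N ^ m := pow_nonneg hN0 m
    obtain ⟨P, hPdef⟩ : ∃ P : ℝ, P = N ^ m := ⟨_, rfl⟩
    rw [pow_succ, ← hPdef] at h2
    rw [← hPdef] at hP ⊢
    have hn : (0 : ℝ) ≤ (m + 1) * P := by positivity
    have h3 : 4 * R * C * N ≤ (m + 1) * β := (div_le_iff₀ hβ0).1 hbig
    have h4 : R * (P * N * C) ≤ (m + 1) * P * β / 4 := by
      have := mul_le_mul_of_nonneg_left h3 hP
      linarith
    have h5 : R * (β / (4 * R * (Q + 1)) * ((m + 1) * P * Q)) ≤ (m + 1) * P * β / 4 := by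
      have e1 : R * (β / (4 * R * (Q + 1)) * ((m + 1) * P * Q)) =
          (m + 1) * P * β / 4 * (Q / (Q + 1)) := by
        field_simp
      rw [e1]
      refine mul_le_of_le_one_right (by positivity) ?_
      rw [div_le_one (by positivity)]
      linarith
    have h6 : (m + 1) * P * (2 * R * σ) ≤ (m + 1) * P * β := mul_le_mul_of_nonneg_left hratio hn
    have h7 : R * W ≤ (m + 1) * P * β / 2 := by
      have := mul_le_mul_of_nonneg_left h2 hR.le
      linarith
    push_cast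
    linarith

theorem gad_all {φ : ℝ → ℝ} (hφ : ∀ s, 0 ≤ φ s) (h0 : φ 0 = 0) (h1 : 0 < φ 1 + φ (-1))
    (hsub : ∀ ε : ℝ, 0 < ε → ∃ C : ℝ, 0 ≤ C ∧ ∀ s, φ s ≤ ε * s ^ 2 + C) (T : Finset ℝ) :
    ∀ R, 0 < R → Gad φ T R := by
  classical
  induction T using Finset.induction_on with
  | empty => exact fun R _ => gad_zero φ h0 h1 R
  | insert τ T _ ih => exact fun R hR => gad_succ hφ hsub hR τ (ih _ (by positivity))

theorem rpow_sub_quad {p : ℝ} (hp : 0 < p) (hp2 : p < 2) (ε : ℝ) (hε : 0 < ε) :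
    ∃ C : ℝ, 0 ≤ C ∧ ∀ s : ℝ, |s| ^ p ≤ ε * s ^ 2 + C := by
  have ht : Filter.Tendsto (fun x : ℝ => x ^ (-(2 - p))) Filter.atTop (nhds 0) :=
    tendsto_rpow_neg_atTop (by linarith)
  obtain ⟨θ, hθ⟩ := Filter.eventually_atTop.1
    ((ht.eventually (gt_mem_nhds hε)).and (Filter.eventually_gt_atTop 0))
  have hθ0 : 0 < θ := (hθ θ le_rfl).2
  refine ⟨θ ^ p, by positivity, fun s => ?_⟩
  rcases le_total |s| θ with h | h
  · have := Real.rpow_le_rpow (abs_nonneg s) h hp.le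
    have : 0 ≤ ε * s ^ 2 := by positivity
    linarith
  · obtain ⟨h1, h2⟩ := hθ _ h
    have e : |s| ^ p = |s| ^ (-(2 - p)) * s ^ 2 := by
      rw [← sq_abs, ← Real.rpow_natCast, ← Real.rpow_add h2]
      norm_num
    have h3 : |s| ^ (-(2 - p)) * s ^ 2 ≤ ε * s ^ 2 :=
      mul_le_mul_of_nonneg_right h1.le (sq_nonneg s)
    have : 0 ≤ θ ^ p := by positivity
    linarith

end Pool.Agent.Lib.MP_e43eb1_co.Lp
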