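import Pool.Agent.Lib.MP_e43eb1_co.Ramsey
import Pool.Agent.Lib.MP_e43eb1_co.LpGad

set_option autoImplicit false

namespace Pool.Agent.Lib.MP_e43eb1_co.Lp

open Finset

theorem deg_real {A ι κ : Type} [Fintype ι] [Fintype κ] {φ : κ → A ⊕ ι} {D : ℕ} (h : Deg φ D)
    (f : ι → ℝ) : ∑ j, Sum.elim (fun _ => (0 : ℝ)) f (φ j) = D * ∑ i, f i := by
  classical
  have h1 : ∀ i : ι, ∑ j, Sum.elim (fun _ => (0 : ℝ)) (fun i' => if i' = i then 1 else 0) (φ j)
      = D := by
    intro i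
    have h2 := h (fun i' => if i' = i then 1 else 0)
    simp only [Finset.sum_ite_eq', Finset.mem_univ, if_true, mul_one] at h2
    have h3 := congrArg (Int.cast : ℤ → ℝ) h2
    push_cast at h3
    rw [← h3]
    refine Finset.sum_congr rfl fun j _ => ?_
    cases φ j <;> simp
  have h4 : ∀ j, Sum.elim (fun _ => (0 : ℝ)) f (φ j) =
      ∑ i, f i * Sum.elim (fun _ => (0 : ℝ)) (fun i' => if i' = i then 1 else 0) (φ j) := by
    intro j
    cases φ j <;> simp
  rw [Finset.sum_congr rfl fun j _ => h4 j, Finset.sum_comm, Finset.mul_sum]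
  refine Finset.sum_congr rfl fun i _ => ?_
  rw [← Finset.mul_sum, h1, mul_comm]

theorem exists_alphabet (S : Finset ℝ) :
    ∃ (A : Type) (_ : Finite A) (val : A → ℝ) (ρ : ℝ → A), ∀ x ∈ S, val (ρ x) = x := by
  classical
  refine ⟨Option S, inferInstance, fun a => a.elim 0 (fun x => x.1),
    fun x => if h : x ∈ S then some ⟨x, h⟩ else none, fun x hx => ?_⟩
  simp [hx]

/-- Slot weights making the total cost independent of the number `s` of active coordinates. -/
theorem exists_weights (N : ℕ) (β σ : ℝ) (hσ : 0 ≤ σ) (hβ : 0 < β)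
    (hr : ((N : ℝ) ^ 2 + 2) * σ ≤ β) :
    ∃ (w : Fin (N + 1) → ℝ) (d : ℝ), 0 < d ∧ (∀ i, 0 ≤ w i) ∧ ∑ i, w i = 1 ∧
      ∀ i : Fin (N + 1), i.val ≠ 0 → (i.val : ℝ) * (σ + w i * (β - σ)) = d := by
  have hδ : 0 < β - σ := by nlinarith [sq_nonneg (N : ℝ)]
  rcases Nat.eq_zero_or_pos N with rfl | hN
  · exact ⟨fun _ => 1, 1, one_pos, fun _ => zero_le_one, by simp, fun i hi => by omega⟩
  have hN' : (0 : ℝ) < N := by exact_mod_cast hN
  obtain ⟨δ, hδdef⟩ : ∃ δ, δ = β - σ := ⟨_, rfl⟩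
  rw [← hδdef] at hδ ⊢
  have hδσ : (N : ℝ) ^ 2 * σ ≤ δ := by rw [hδdef]; nlinarith
  let v : Fin N → ℝ := fun j => (δ / N / (j.val + 1) - σ) / δ
  have hv0 : ∀ j, 0 ≤ v j := by
    intro j
    have hj : (j.val : ℝ) + 1 ≤ N := by exact_mod_cast j.isLt
    refine div_nonneg (sub_nonneg.2 ?_) hδ.le
    rw [le_div_iff₀ (by positivity), le_div_iff₀ hN']
    nlinarith [mul_le_mul_of_nonneg_left hj (mul_nonneg hσ hN'.le)]
  have hv1 : ∀ j, v j ≤ 1 / N := by
    intro j
    have hj : (0 : ℝ) ≤ j.val := by positivity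
    have h1 : δ / N / (j.val + 1) ≤ δ / N := div_le_self (by positivity) (by linarith)
    rw [div_le_iff₀ hδ]
    have : 1 / (N : ℝ) * δ = δ / N := by ring
    linarith
  have hsum : ∑ j, v j ≤ 1 := by
    refine (Finset.sum_le_sum fun j _ => hv1 j).trans (le_of_eq ?_)
    simp only [Finset.sum_const, Finset.card_univ, Fintype.card_fin, nsmul_eq_mul]
    field_simp
  refine ⟨Fin.cases (1 - ∑ j, v j) v, δ / N, by positivity, ?_, ?_, ?_⟩
  · intro i
    induction i using Fin.cases with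
    | zero => simpa using hsum
    | succ j => simpa using hv0 j
  · rw [Fin.sum_univ_succ]
    simp
  · intro i hi
    induction i using Fin.cases with
    | zero => simp at hi
    | succ j =>
      simp only [Fin.cases_succ, Fin.val_succ, v]
      push_cast
      field_simp
      ring

theorem main_lp {p : ℝ} (hp : 0 < p) (T : Finset ℝ) (h0 : (0 : ℝ) ∈ T)
    (hgad : ∀ R, 0 < R → Gad (fun s => |s| ^ p) T R) (t k : ℕ) : ∃ n : ℕ,
    ∀ c : (Fin n → ℝ) → Fin k,
      ∃ u : Fin t → Fin n → ℝ,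
        (∀ i i' : Fin t, i ≠ i' → ∀ j : Fin n, u i j = 0 ∨ u i' j = 0) ∧
        (∀ i : Fin t, ∑ j : Fin n, |u i j| ^ p = 1) ∧
        ∃ x : Fin n → ℝ, ∀ l : Fin t → ℝ, (∀ i, l i ∈ T) →
          c (x + ∑ i : Fin t, l i • u i) = c x := by
  classical
  obtain ⟨ι, _, HJ⟩ := Combinatorics.Subspace.exists_mono_in_high_dimension T (Fin k) (Fin t)
  obtain ⟨N, hN⟩ : ∃ N, N = Fintype.card ι := ⟨_, rfl⟩
  obtain ⟨Y, _, G, _, _, _, e, xL, uL, xR, uR, hG, hrel, -, -, hpos, hratio⟩ :=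
    hgad ((N : ℝ) ^ 2 + 2) (by positivity)
  obtain ⟨β, hβ⟩ : ∃ β : ℝ, β = ∑ y, |uL y| ^ p := ⟨_, rfl⟩
  obtain ⟨σ, hσ⟩ : ∃ σ : ℝ, σ = ∑ y, |uR y| ^ p := ⟨_, rfl⟩
  have hσ0 : 0 ≤ σ := by rw [hσ]; exact Finset.sum_nonneg fun _ _ => by positivity
  rw [← hβ, ← hσ] at hratio
  rw [← hβ] at hpos
  obtain ⟨wt, d₀, hd₀, hwt0, hwt1, hwt⟩ := exists_weights N β σ hσ0 hpos hratio
  let lam : Fin (N + 1) → ℝ := fun i => wt i ^ (1 / p)
  have hlam : ∀ i (s : ℝ), |lam i * s| ^ p = wt i * |s| ^ p := by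
    intro i s
    have h1 : 0 ≤ lam i := Real.rpow_nonneg (hwt0 i) _
    rw [abs_mul, abs_of_nonneg h1, Real.mul_rpow h1 (abs_nonneg _)]
    simp only [lam]
    rw [← Real.rpow_mul (hwt0 i), one_div_mul_cancel hp.ne', Real.rpow_one]
  obtain ⟨A, _, val, ρ, hval⟩ := exists_alphabet
    (Finset.univ.image fun q : Fin (N + 1) × T × Y => lam q.1 * (xL q.2.2 + q.2.1.1 * uL q.2.2))
  have hvalL : ∀ (i : Fin (N + 1)) (a : T) (y : Y),
      val (ρ (lam i * (xL y + a.1 * uL y))) = lam i * (xL y + a.1 * uL y) :=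
    fun i a y => hval _ (Finset.mem_image.2 ⟨(i, a, y), Finset.mem_univ _, rfl⟩)
  have hvalR : ∀ (i : Fin (N + 1)) (a : T) (y : Y),
      val (ρ (lam i * (xR y + a.1 * uR y))) = lam i * (xR y + a.1 * uR y) := by
    intro i a y
    obtain ⟨g, hg⟩ := hrel a.1 a.2
    rw [hg, hvalL]
  obtain ⟨D, hD, hR⟩ := ram_group (A := A) (Y := Y) hG
  obtain ⟨κ, _, H⟩ := hR.pow (ι × Fin (N + 1)) (Fin k)
  let eκ : κ ≃ Fin (Fintype.card κ) := Fintype.equivFin κ
  have hDd : (0 : ℝ) < D * d₀ := by positivity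
  obtain ⟨γ, hγ⟩ : ∃ γ : ℝ, ∀ s : ℝ, |γ * s| ^ p = (D * d₀)⁻¹ * |s| ^ p := by
    refine ⟨(D * d₀)⁻¹ ^ (1 / p), fun s => ?_⟩
    have h0' : (0 : ℝ) ≤ (D * d₀)⁻¹ := by positivity
    have h1 : 0 ≤ (D * d₀)⁻¹ ^ (1 / p) := Real.rpow_nonneg h0' _
    rw [abs_mul, abs_of_nonneg h1, Real.mul_rpow h1 (abs_nonneg _), ← Real.rpow_mul h0',
      one_div_mul_cancel hp.ne', Real.rpow_one]
  refine ⟨Fintype.card κ, fun c => ?_⟩
  obtain ⟨φ, hφ, hc⟩ := H (fun a => c (fun j => γ * val (a (eκ.symm j))))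
  let zw : (ι → T) → (ι × Fin (N + 1)) × Y → A :=
    fun w q => ρ (lam q.1.2 * (xL q.2 + (w q.1.1).1 * uL q.2))
  obtain ⟨l, col, hl⟩ := HJ (fun w => c (fun j => γ * val (sub φ (zw w) (eκ.symm j))))
  let s : Fin t → ℕ := fun v => (Finset.univ.filter fun i : ι => l.idxFun i = Sum.inr v).card
  have hs0 : ∀ v, s v ≠ 0 := by
    intro v
    obtain ⟨i, hi⟩ := l.proper v
    exact (Finset.card_pos.2 ⟨i, by simp [hi]⟩).ne'
  have hsN : ∀ v, s v < N + 1 := by
    intro v
    rw [hN]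
    exact Nat.lt_succ_of_le (Finset.card_le_univ _)
  let sl : Fin t → Fin (N + 1) := fun v => ⟨s v, hsN v⟩
  let U : Fin t → (ι × Fin (N + 1)) × Y → ℝ := fun v q =>
    if l.idxFun q.1.1 = Sum.inr v then
      (if q.1.2 = sl v then lam q.1.2 * uL q.2 else lam q.1.2 * uR q.2) else 0
  let Z : (Fin t → T) → (ι × Fin (N + 1)) × Y → ℝ := fun w q =>
    Sum.elim (fun a : T => lam q.1.2 * (xL q.2 + a.1 * uL q.2))
      (fun v => if q.1.2 = sl v then lam q.1.2 * (xL q.2 + (w v).1 * uL q.2)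
        else lam q.1.2 * (xR q.2 + (w v).1 * uR q.2)) (l.idxFun q.1.1)
  have hZval : ∀ w q, val (ρ (Z w q)) = Z w q := by
    intro w q
    simp only [Z]
    cases l.idxFun q.1.1 with
    | inl a => exact hvalL _ _ _
    | inr v =>
      simp only [Sum.elim_inr]
      split_ifs
      · exact hvalL _ _ _
      · exact hvalR _ _ _
  have hZcol : ∀ w, c (fun j => γ * Sum.elim val (Z w) (φ (eκ.symm j))) = col := by
    intro w
    rw [← hl w]
    have h1 := hc (zw (l w)) (fun q => ρ (Z w q)) (by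
      intro q
      cases hq : l.idxFun q.1 with
      | inl a =>
        refine ⟨1, fun y => ?_⟩
        simp only [zw, Z, hq, Sum.elim_inl, one_smul, Combinatorics.Subspace.apply_inl hq]
      | inr v =>
        by_cases hqT : q.2 = sl v
        · refine ⟨1, fun y => ?_⟩
          simp only [zw, Z, hq, Sum.elim_inr, one_smul, Combinatorics.Subspace.apply_inr hq, hqT,
            if_true]
        · obtain ⟨g, hg⟩ := hrel (w v).1 (w v).2
          refine ⟨g, fun y => ?_⟩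
          simp only [zw, Z, hq, Sum.elim_inr, Combinatorics.Subspace.apply_inr hq, hqT,
            if_false, hg])
    refine Eq.trans ?_ h1.symm
    congr 1
    funext j
    simp only [sub]
    cases φ (eκ.symm j) with
    | inl a => rfl
    | inr q => exact congrArg (γ * ·) (hZval w q).symm
  have hUnorm : ∀ v, ∑ q, |U v q| ^ p = d₀ := by
    intro v
    rw [Fintype.sum_prod_type, Fintype.sum_prod_type, ← hwt (sl v) (hs0 v)]
    have h1 : ∀ (i : ι) (m : Fin (N + 1)), ∑ y, |U v ((i, m), y)| ^ p =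
        if l.idxFun i = Sum.inr v then
          wt m * σ + (if m = sl v then wt m * (β - σ) else 0) else 0 := by
      intro i m
      by_cases hq : l.idxFun i = Sum.inr v
      · by_cases hm : m = sl v
        · simp only [U, hq, if_true, if_pos hm, hlam, ← Finset.mul_sum, ← hβ]
          ring
        · simp only [U, hq, if_true, if_neg hm, hlam, ← Finset.mul_sum, ← hσ]
          ring
      · simp [U, hq, hp.ne']
    have h2 : ∀ i : ι, ∑ m : Fin (N + 1), ∑ y, |U v ((i, m), y)| ^ p =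
        if l.idxFun i = Sum.inr v then σ + wt (sl v) * (β - σ) else 0 := by
      intro i
      rw [Finset.sum_congr rfl fun m _ => h1 i m]
      split_ifs
      · rw [Finset.sum_add_distrib, ← Finset.sum_mul, hwt1]
        simp
      · simp
    rw [Finset.sum_congr rfl fun i _ => h2 i, ← Finset.sum_filter,
      Finset.sum_const, nsmul_eq_mul]
  let w₀ : Fin t → T := fun _ => ⟨0, h0⟩
  refine ⟨fun v j => γ * Sum.elim (fun _ => 0) (U v) (φ (eκ.symm j)), ?_, ?_,
    fun j => γ * Sum.elim val (Z w₀) (φ (eκ.symm j)), ?_⟩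
  · intro v v' hvv' j
    beta_reduce
    cases φ (eκ.symm j) with
    | inl a => exact Or.inl (by simp)
    | inr q =>
      simp only [Sum.elim_inr, U]
      by_cases hq : l.idxFun q.1.1 = Sum.inr v
      · right
        rw [if_neg, mul_zero]
        rw [hq]
        exact fun h => hvv' (Sum.inr.inj h)
      · left
        rw [if_neg hq, mul_zero]
  · intro v
    have h1 := deg_real hφ (fun q => |U v q| ^ p)
    rw [hUnorm] at h1
    rw [← Equiv.sum_comp eκ]
    simp only [hγ, ← Finset.mul_sum, Equiv.symm_apply_apply]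
    rw [inv_mul_eq_one₀ hDd.ne', ← h1]
    refine Finset.sum_congr rfl fun j _ => ?_
    cases φ j <;> simp [hp.ne']
  · intro μ hμ
    let w : Fin t → T := fun v => ⟨μ v, hμ v⟩
    rw [hZcol w₀, ← hZcol w]
    congr 1
    funext j
    simp only [Pi.add_apply, Finset.sum_apply, Pi.smul_apply, smul_eq_mul]
    cases φ (eκ.symm j) with
    | inl a => simp
    | inr q =>
      simp only [Sum.elim_inr, Z, U]
      cases hq : l.idxFun q.1.1 with
      | inl a => simp
      | inr v =>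
        simp only [Sum.elim_inr, Sum.inr.injEq, mul_ite, mul_zero, Finset.sum_ite_eq,
          Finset.mem_univ, if_true, w, w₀]
        split_ifs <;> ring

/-- Disjointly supported vectors of `p`-norm one span an isometric copy of `ℓ_p^t`. -/
theorem iso_of_disj {p : ℝ} (hp : 0 < p) {t n : ℕ} (u : Fin t → Fin n → ℝ)
    (h1 : ∀ i i' : Fin t, i ≠ i' → ∀ j : Fin n, u i j = 0 ∨ u i' j = 0)
    (h2 : ∀ i : Fin t, ∑ j : Fin n, |u i j| ^ p = 1) (l : Fin t → ℝ) :
    ∑ j, |(∑ i, l i • u i) j| ^ p = ∑ i, |l i| ^ p := by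
  have h3 : ∀ j, |(∑ i, l i • u i) j| ^ p = ∑ i, |l i| ^ p * |u i j| ^ p := by
    intro j
    simp only [Finset.sum_apply, Pi.smul_apply, smul_eq_mul]
    by_cases h : ∃ i, u i j ≠ 0
    · obtain ⟨i, hi⟩ := h
      have hz : ∀ i', i' ≠ i → u i' j = 0 := fun i' hi' => (h1 i' i hi' j).resolve_right hi
      rw [Finset.sum_eq_single i (fun i' _ hi' => by simp [hz i' hi']) (by simp),
        Finset.sum_eq_single i (fun i' _ hi' => by simp [hz i' hi', hp.ne']) (by simp),
        abs_mul, Real.mul_rpow (abs_nonneg _) (abs_nonneg _)]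
    · push Not at h
      simp [h, hp.ne']
  rw [Finset.sum_congr rfl fun j _ => h3 j, Finset.sum_comm]
  refine Finset.sum_congr rfl fun i _ => ?_
  rw [← Finset.mul_sum, h2, mul_one]

theorem main_set {p : ℝ} (hp : 0 < p) (t k : ℕ) (F : Finset (Fin t → ℝ))
    (hgad : ∀ T : Finset ℝ, ∀ R, 0 < R → Gad (fun s => |s| ^ p) T R) : ∃ n : ℕ,
    ∀ c : (Fin n → ℝ) → Fin k,
      ∃ u : Fin t → Fin n → ℝ,
        (Pairwise fun i i' => Disjoint (Function.support (u i)) (Function.support (u i'))) ∧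
        (∀ l : Fin t → ℝ, ∑ j, |(∑ i, l i • u i) j| ^ p = ∑ i, |l i| ^ p) ∧
        ∃ (x : Fin n → ℝ) (colour : Fin k), ∀ f ∈ F, c (x + ∑ i, f i • u i) = colour := by
  classical
  obtain ⟨n, H⟩ := main_lp hp (insert 0 (F.biUnion fun f => Finset.univ.image f))
    (Finset.mem_insert_self _ _) (hgad _) t k
  refine ⟨n, fun c => ?_⟩
  obtain ⟨u, h1, h2, x, hx⟩ := H c
  refine ⟨u, fun i i' hii' => ?_, iso_of_disj hp u h1 h2, x, c x, fun f hf => hx f fun i => ?_⟩
  · refine Set.disjoint_left.2 fun j hj hj' => ?_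
    rcases h1 i i' hii' j with h | h
    · exact hj h
    · exact hj' h
  · exact Finset.mem_insert_of_mem
      (Finset.mem_biUnion.2 ⟨f, hf, Finset.mem_image_of_mem _ (Finset.mem_univ _)⟩)

theorem gad_lt_two {p : ℝ} (hp : 0 < p) (hp2 : p < 2) (T : Finset ℝ) (R : ℝ) (hR : 0 < R) :
    Gad (fun s => |s| ^ p) T R :=
  gad_all (fun s => by positivity) (by simp [hp.ne']) (by simp) (rpow_sub_quad hp hp2) T R hR

end Pool.Agent.Lib.MP_e43eb1_co.Lp
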