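import Pool.Agent.Lib.MP_e43eb1_co.LpMain

set_option autoImplicit false

namespace Pool.Agent.Lib.MP_e43eb1_co.Lp

open Finset

/-- The cube of lines `l - Σ_{s ∈ S} c (l - s)`, even `S` against odd `S`. -/
def Cube (T : Finset ℝ) (c : ℝ) : Prop :=
  ∃ (Q : Type) (_ : Group Q) (_ : Fintype Q) (e : ℕ) (aL bL aR bR : Q → ℝ),
    Nat.card Q = 2 ^ e ∧ (∀ q : Q, q * q = 1) ∧ aL 1 = 0 ∧ bL 1 = 1 ∧
    (∀ l ∈ T, ∃ q : Q, ∀ w, aR w + l * bR w = aL (q * w) + l * bL (q * w)) ∧
    (∀ ψ : ℝ → ℝ, ∑ w, ψ (bL w) =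
      ∑ j ∈ range (T.card + 1), if Odd j then 0 else (T.card.choose j : ℝ) * ψ (1 - j * c)) ∧
    (∀ ψ : ℝ → ℝ, ∑ w, ψ (bR w) =
      ∑ j ∈ range (T.card + 1), if Odd j then (T.card.choose j : ℝ) * ψ (1 - j * c) else 0)

theorem cube_one (t c : ℝ) : Cube {t} c := by
  refine ⟨Unit, inferInstance, inferInstance, 0, fun _ => 0, fun _ => 1, fun _ => c * t,
    fun _ => 1 - c, by simp, fun _ => rfl, rfl, rfl, ?_, ?_, ?_⟩
  · intro l hl
    rw [Finset.mem_singleton] at hl
    subst hl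
    exact ⟨1, fun _ => by ring⟩
  · intro ψ
    simp [Finset.sum_range_succ]
  · intro ψ
    simp [Finset.sum_range_succ]

theorem pascal (n : ℕ) (F : ℕ → ℝ) :
    ∑ j ∈ range (n + 1 + 1), ((n + 1).choose j : ℝ) * F j =
      ∑ j ∈ range (n + 1), (n.choose j : ℝ) * F j +
        ∑ j ∈ range (n + 1), (n.choose j : ℝ) * F (j + 1) := by
  rw [Finset.sum_range_succ' _ (n + 1), Finset.sum_range_succ' (fun j => (n.choose j : ℝ) * F j)]
  simp only [Nat.choose_succ_succ', Nat.cast_add, add_mul, Finset.sum_add_distrib]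
  rw [Finset.sum_range_succ (fun j => (n.choose (j + 1) : ℝ) * F (j + 1))]
  simp
  ring

theorem cube_succ {T : Finset ℝ} {c τ : ℝ} (hτ : τ ∉ T) (h : Cube T c) : Cube (insert τ T) c := by
  classical
  obtain ⟨Q, _, _, e, aL, bL, aR, bR, hQ, hqq, ha, hb, hrel, hL, hR⟩ := h
  let sw : (Q → ℝ) → (Q → ℝ) → Q × Multiplicative (ZMod 2) → ℝ :=
    fun f g x => if x.2 = 1 then f x.1 else g x.1
  have hne : (Multiplicative.ofAdd (1 : ZMod 2)) ≠ 1 := by decide
  have hall : ∀ z : Multiplicative (ZMod 2), z = 1 ∨ z = Multiplicative.ofAdd 1 := by decide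
  have hsq : (Multiplicative.ofAdd (1 : ZMod 2)) * Multiplicative.ofAdd 1 = 1 := by decide
  have hsum : ∀ (ψ : ℝ → ℝ) (f g : Q → ℝ),
      ∑ x, ψ (sw f g x) = ∑ w, ψ (f w) + ∑ w, ψ (g w) := by
    intro ψ f g
    rw [Fintype.sum_prod_type_right]
    have : (Finset.univ : Finset (Multiplicative (ZMod 2))) = {1, Multiplicative.ofAdd 1} := by
      decide
    rw [this, Finset.sum_pair hne.symm]
    simp [sw, hne]
  refine ⟨Q × Multiplicative (ZMod 2), inferInstance, inferInstance, e + 1,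
    sw aL (fun w => aR w + c * τ), sw bL (fun w => bR w - c),
    sw aR (fun w => aL w + c * τ), sw bR (fun w => bL w - c), ?_, ?_, ?_, ?_, ?_, ?_, ?_⟩
  · rw [Nat.card_prod, hQ, pow_succ]
    simp
  · rintro ⟨q, z⟩
    rcases hall z with rfl | rfl
    · simp [hqq]
    · simp [hqq, hsq]
  · simp [sw, ha]
  · simp [sw, hb]
  · intro l hl
    rcases Finset.mem_insert.1 hl with rfl | hl
    · refine ⟨(1, Multiplicative.ofAdd 1), ?_⟩
      rintro ⟨w, z⟩
      rcases hall z with rfl | rfl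
      · simp only [sw, Prod.mk_mul_mk, one_mul, mul_one, hne, if_true, if_false]
        ring
      · simp only [sw, Prod.mk_mul_mk, one_mul, hsq, hne, if_true, if_false]
        ring
    · obtain ⟨q, hq⟩ := hrel l hl
      refine ⟨(q, 1), ?_⟩
      rintro ⟨w, z⟩
      rcases hall z with rfl | rfl
      · simp only [sw, Prod.mk_mul_mk, mul_one, if_true]
        exact hq w
      · simp only [sw, Prod.mk_mul_mk, one_mul, hne, if_false]
        have := hq (q * w)
        rw [← mul_assoc, hqq, one_mul] at this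
        linarith
  · intro ψ
    rw [hsum ψ bL (fun w => bR w - c), hL ψ, hR (fun s => ψ (s - c)),
      Finset.card_insert_of_notMem hτ]
    have := pascal T.card (fun j => if Odd j then 0 else ψ (1 - j * c))
    simp only [mul_ite, mul_zero] at this
    rw [this]
    congr 1
    refine Finset.sum_congr rfl fun j _ => ?_
    by_cases hj : Odd j
    · have h2 : ¬ Odd (j + 1) := by rw [Nat.odd_add_one]; exact fun h => h hj
      rw [if_pos hj, if_neg h2]
      push_cast
      rw [show 1 - (j : ℝ) * c - c = 1 - (j + 1) * c by ring]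
    · have h2 : Odd (j + 1) := Nat.odd_add_one.2 hj
      rw [if_neg hj, if_pos h2]
  · intro ψ
    rw [hsum ψ bR (fun w => bL w - c), hR ψ, hL (fun s => ψ (s - c)),
      Finset.card_insert_of_notMem hτ]
    have := pascal T.card (fun j => if Odd j then ψ (1 - j * c) else 0)
    simp only [mul_ite, mul_zero] at this
    rw [this]
    congr 1
    refine Finset.sum_congr rfl fun j _ => ?_
    by_cases hj : Odd j
    · have h2 : ¬ Odd (j + 1) := by rw [Nat.odd_add_one]; exact fun h => h hj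
      rw [if_pos hj, if_neg h2]
    · have h2 : Odd (j + 1) := Nat.odd_add_one.2 hj
      rw [if_neg hj, if_pos h2]
      push_cast
      rw [show 1 - (j : ℝ) * c - c = 1 - (j + 1) * c by ring]

theorem cube_all (c : ℝ) (T : Finset ℝ) (hT : T.Nonempty) : Cube T c := by
  classical
  induction hT using Finset.Nonempty.cons_induction with
  | singleton t => exact cube_one t c
  | cons τ T hτ _ ih =>
    rw [Finset.cons_eq_insert]
    exact cube_succ hτ ih

/-- Equivalent lines, the cost of the second direction being at most `δ` times the first. -/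
def Gad' (p : ℝ) (T : Finset ℝ) (δ : ℝ) : Prop :=
  ∃ (Y : Type) (_ : Fintype Y) (G : Type) (_ : Group G) (_ : Finite G) (_ : MulAction G Y) (e : ℕ)
    (xL uL xR uR : Y → ℝ), Nat.card G = 2 ^ e ∧
    (∀ l ∈ T, ∃ g : G, ∀ y, xR y + l * uR y = xL (g • y) + l * uL (g • y)) ∧
    0 < ∑ y, |uL y| ^ p ∧ ∑ y, |uR y| ^ p ≤ δ * ∑ y, |uL y| ^ p

theorem gad'_one (p : ℝ) (T : Finset ℝ) : Gad' p T 1 :=
  ⟨Unit, inferInstance, Unit, inferInstance, inferInstance, inferInstance, 0, fun _ => 0,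
    fun _ => 1, fun _ => 0, fun _ => 1, by simp, fun _ _ => ⟨1, fun _ => rfl⟩, by simp, by simp⟩

/-- Substitution of a cube for every coordinate of the second line. -/
theorem gad'_sub {p c δ γ : ℝ} {T : Finset ℝ} (hδ : 0 ≤ δ) (hc : Cube T c)
    (hγ : (∑ j ∈ range (T.card + 1),
      if Odd j then (T.card.choose j : ℝ) * |1 - j * c| ^ p else 0) ≤ γ)
    (h : Gad' p T δ) : Gad' p T (γ * δ) := by
  classical
  obtain ⟨Q, _, _, e', aL, bL, aR, bR, hQ, -, ha, hb, hrel', -, hR⟩ := hc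
  obtain ⟨Y, _, G, _, _, _, e, xL, uL, xR, uR, hG, hrel, hpos, hratio⟩ := h
  have hγ' : ∑ w, |bR w| ^ p ≤ γ := (hR (fun s => |s| ^ p)).le.trans hγ
  have hγ0 : 0 ≤ γ := (Finset.sum_nonneg fun _ _ => by positivity).trans hγ'
  have hge : ∑ y, |uL y| ^ p ≤
      ∑ x : Y × Q, |if x.2 = 1 then uL x.1 else uR x.1 * bL x.2| ^ p := by
    rw [Fintype.sum_prod_type]
    refine Finset.sum_le_sum fun y _ => ?_
    refine le_trans (le_of_eq ?_) (Finset.single_le_sum
      (f := fun w : Q => |if w = 1 then uL y else uR y * bL w| ^ p)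
      (fun _ _ => by positivity) (Finset.mem_univ 1))
    simp
  refine ⟨Y × Q, inferInstance, RegularWreathProduct G Q, inferInstance, inferInstance,
    inferInstance, e * 2 ^ e' + e',
    fun x => if x.2 = 1 then xL x.1 else xR x.1 + uR x.1 * aL x.2,
    fun x => if x.2 = 1 then uL x.1 else uR x.1 * bL x.2,
    fun x => xR x.1 + uR x.1 * aR x.2, fun x => uR x.1 * bR x.2, ?_, ?_, hpos.trans_le hge, ?_⟩
  · rw [RegularWreathProduct.card, hG, hQ, pow_add, pow_mul]
  · intro l hl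
    obtain ⟨g, hg⟩ := hrel l hl
    obtain ⟨q, hq⟩ := hrel' l hl
    refine ⟨⟨fun w => if w = 1 then g else 1, q⟩, ?_⟩
    rintro ⟨y, w⟩
    rw [RegularWreathProduct.smul_def]
    have h1 := hq w
    by_cases hw : q * w = 1
    · simp only [hw, if_true]
      rw [hw, ha, hb] at h1
      rw [← hg y]
      linear_combination uR y * h1
    · simp only [hw, if_false, one_smul]
      linear_combination uR y * h1
  · have h1 : ∑ x : Y × Q, |uR x.1 * bR x.2| ^ p = (∑ y, |uR y| ^ p) * ∑ w, |bR w| ^ p := by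
      rw [Fintype.sum_prod_type, Finset.sum_mul_sum]
      refine Finset.sum_congr rfl fun y _ => Finset.sum_congr rfl fun w _ => ?_
      rw [abs_mul, Real.mul_rpow (abs_nonneg _) (abs_nonneg _)]
    have h2 : 0 ≤ ∑ y, |uR y| ^ p := Finset.sum_nonneg fun _ _ => by positivity
    rw [h1]
    calc (∑ y, |uR y| ^ p) * ∑ w, |bR w| ^ p ≤ (∑ y, |uR y| ^ p) * γ :=
          mul_le_mul_of_nonneg_left hγ' h2
      _ ≤ (δ * ∑ y, |uL y| ^ p) * γ := mul_le_mul_of_nonneg_right hratio hγ0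
      _ = γ * δ * ∑ y, |uL y| ^ p := by ring
      _ ≤ _ := mul_le_mul_of_nonneg_left hge (mul_nonneg hγ0 hδ)

theorem gad_of_gad' {p δ R : ℝ} {T : Finset ℝ} (hR : 0 < R) (hδ : R * δ ≤ 1) (h : Gad' p T δ) :
    Gad (fun s => |s| ^ p) T R := by
  obtain ⟨Y, _, G, _, _, _, e, xL, uL, xR, uR, hG, hrel, hpos, hratio⟩ := h
  refine ⟨Y ⊕ Y, inferInstance, G, inferInstance, inferInstance, inferInstance, e,
    Sum.elim xL (fun y => -xL y), Sum.elim uL (fun y => -uL y), Sum.elim xR (fun y => -xR y),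
    Sum.elim uR (fun y => -uR y), hG, ?_, by simp, by simp, ?_, ?_⟩
  · intro l hl
    obtain ⟨g, hg⟩ := hrel l hl
    refine ⟨g, ?_⟩
    rintro (y | y)
    · simpa using hg y
    · have := hg y
      simp only [Sum.smul_inr, Sum.elim_inr]
      linarith
  · simp only [Fintype.sum_sum_type, Sum.elim_inl, Sum.elim_inr, abs_neg]
    linarith
  · simp only [Fintype.sum_sum_type, Sum.elim_inl, Sum.elim_inr, abs_neg]
    have h1 := mul_le_mul_of_nonneg_left hratio hR.le
    have h2 := mul_le_mul_of_nonneg_right hδ hpos.le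
    nlinarith

theorem gad_cube {p c : ℝ} {T : Finset ℝ} (hT : T.Nonempty)
    (hγ : (∑ j ∈ range (T.card + 1),
      if Odd j then (T.card.choose j : ℝ) * |1 - j * c| ^ p else 0) < 1)
    (R : ℝ) (hR : 0 < R) : Gad (fun s => |s| ^ p) T R := by
  obtain ⟨γ, hγ1, hγ2⟩ := exists_between hγ
  have hγ0 : 0 ≤ γ := by
    refine le_trans (Finset.sum_nonneg fun j _ => ?_) hγ1.le
    split_ifs
    · positivity
    · exact le_rfl
  have key : ∀ m : ℕ, Gad' p T (γ ^ m) := by
    intro m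
    induction m with
    | zero => simpa using gad'_one p T
    | succ m ih =>
      rw [pow_succ']
      exact gad'_sub (pow_nonneg hγ0 m) (cube_all c T hT) hγ1.le ih
  obtain ⟨m, hm⟩ := exists_pow_lt_of_lt_one (inv_pos.2 hR) hγ2
  refine gad_of_gad' hR ?_ (key m)
  have := mul_le_mul_of_nonneg_left hm.le hR.le
  rwa [mul_inv_cancel₀ hR.ne'] at this

theorem main_cube {p c : ℝ} (hp : 0 < p) {m : ℕ} (hm : 0 < m)
    (hγ : (∑ j ∈ range (m + 1), if Odd j then (m.choose j : ℝ) * |1 - j * c| ^ p else 0) < 1)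
    (T : Finset ℝ) (hT : T.card ≤ m) (t k : ℕ) : ∃ n : ℕ,
    ∀ col : (Fin n → ℝ) → Fin k,
      ∃ u : Fin t → Fin n → ℝ,
        (Pairwise fun i i' => Disjoint (Function.support (u i)) (Function.support (u i'))) ∧
        (∀ l : Fin t → ℝ, ∑ j, |(∑ i, l i • u i) j| ^ p = ∑ i, |l i| ^ p) ∧
        ∃ (x : Fin n → ℝ) (colour : Fin k), ∀ f : Fin t → ℝ, (∀ i, f i ∈ T) →
          col (x + ∑ i, f i • u i) = colour := by
  classical
  obtain ⟨T₁, hT₁, hcard⟩ := Infinite.exists_superset_card_eq T m hT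
  obtain ⟨t₀, ht₀⟩ : T₁.Nonempty := Finset.card_pos.1 (hcard ▸ hm)
  have hc : (T₁.image fun s => s - t₀).card = m := by
    rw [Finset.card_image_of_injective _ (sub_left_injective), hcard]
  have h0 : (0 : ℝ) ∈ T₁.image fun s => s - t₀ := Finset.mem_image.2 ⟨t₀, ht₀, sub_self _⟩
  obtain ⟨n, H⟩ := main_lp hp _ h0 (gad_cube (c := c) ⟨0, h0⟩ (by rwa [hc])) t k
  refine ⟨n, fun col => ?_⟩
  obtain ⟨u, h1, h2, x, hx⟩ := H col
  refine ⟨u, fun i i' hii' => ?_, iso_of_disj hp u h1 h2, x - ∑ i, t₀ • u i, col x,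
    fun f hf => ?_⟩
  · refine Set.disjoint_left.2 fun j hj hj' => ?_
    rcases h1 i i' hii' j with h | h
    · exact hj h
    · exact hj' h
  · rw [← hx (fun i => f i - t₀) fun i => Finset.mem_image_of_mem _ (hT₁ (hf i))]
    simp only [sub_smul, Finset.sum_sub_distrib]
    rw [sub_add_eq_add_sub, add_sub_assoc]

end Pool.Agent.Lib.MP_e43eb1_co.Lp
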