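import Pool.Agent.Lib.MP_e43eb1_co.Ramsey
import Pool.Agent.Lib.MP_e43eb1_co.Gadget

set_option autoImplicit false

namespace Pool.Agent.Lib.MP_e43eb1_co

open Finset

/-- Choice of the slots of the first type, making the total cost independent of `s`. -/
theorem choose_slots {P : Type} (S : Finset P) (s N M : ℕ) (β σ : ℤ) (hσ : 0 ≤ σ) (hs : 1 ≤ s)
    (hsN : s ≤ N) (hβ : (N + 2) * σ ≤ β) (hM : (M : ℤ) = β - σ) (hS : S.card = s * M) :
    ∃ T ⊆ S, (T.card : ℤ) * β + ((S.card : ℤ) - T.card) * σ = β * (β - σ) := by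
  have hsN' : (s : ℤ) ≤ N := by exact_mod_cast hsN
  have hs' : (1 : ℤ) ≤ s := by exact_mod_cast hs
  have h0 : 0 ≤ β - s * σ := by nlinarith
  have hβ0 : 0 ≤ β := by nlinarith
  obtain ⟨J, hJ⟩ := Int.eq_ofNat_of_zero_le h0
  have hJle : J ≤ S.card := by
    have : (J : ℤ) ≤ s * M := by
      rw [← hJ, hM]
      nlinarith
    rw [hS]
    exact_mod_cast this
  obtain ⟨T, hT, hTc⟩ := Finset.exists_subset_card_eq hJle
  refine ⟨T, hT, ?_⟩
  rw [hTc, hS, ← hJ]
  push_cast
  rw [hM]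
  ring

theorem exists_alphabet (S : Finset ℤ) :
    ∃ (A : Type) (_ : Finite A) (val : A → ℤ) (ρ : ℤ → A), ∀ x ∈ S, val (ρ x) = x := by
  classical
  refine ⟨Option S, inferInstance, fun a => a.elim 0 (fun x => x.1),
    fun x => if h : x ∈ S then some ⟨x, h⟩ else none, fun x hx => ?_⟩
  simp [hx]

theorem main_box (r t k : ℕ) : ∃ d n : ℕ, 0 < d ∧
    ∀ c : (Fin n → ℤ) → Fin k,
      ∃ u : Fin t → Fin n → ℤ,
        (∀ i i' : Fin t, i ≠ i' → ∀ j : Fin n, u i j = 0 ∨ u i' j = 0) ∧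
        (∀ i : Fin t, ∑ j : Fin n, |u i j| = (d : ℤ)) ∧
        ∃ x : Fin n → ℤ, ∀ l : Fin t → ℤ, (∀ i, |l i| ≤ (r : ℤ)) →
          c (x + ∑ i : Fin t, l i • u i) = c x := by
  classical
  obtain ⟨ι, _, HJ⟩ :=
    Combinatorics.Subspace.exists_mono_in_high_dimension (Fin (2 * r + 1)) (Fin k) (Fin t)
  obtain ⟨N, hN⟩ : ∃ N, N = Fintype.card ι := ⟨_, rfl⟩
  obtain ⟨Y, _, G, _, _, _, e, xL, uL, xR, uR, hG, hrel, -, -, hpos, hratio⟩ :=
    gad_all (2 * r + 1) (N + 2)
  obtain ⟨β, hβ⟩ : ∃ β : ℤ, β = ∑ y, |uL y| := ⟨_, rfl⟩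
  obtain ⟨σ, hσ⟩ : ∃ σ : ℤ, σ = ∑ y, |uR y| := ⟨_, rfl⟩
  have hσ0 : 0 ≤ σ := by rw [hσ]; exact Finset.sum_nonneg fun _ _ => abs_nonneg _
  rw [← hβ, ← hσ] at hratio
  rw [← hβ] at hpos
  push_cast at hratio
  have hβσ : 0 < β - σ := by
    have : (0 : ℤ) ≤ N * σ := by positivity
    nlinarith
  obtain ⟨M, hM⟩ := Int.eq_ofNat_of_zero_le hβσ.le
  obtain ⟨d₀, hd₀⟩ := Int.eq_ofNat_of_zero_le (mul_pos hpos hβσ).le
  have hd₀pos : 0 < d₀ := by
    have := mul_pos hpos hβσ
    rw [hd₀] at this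
    exact_mod_cast this
  obtain ⟨A, _, val, ρ, hval⟩ := exists_alphabet
    (Finset.univ.image fun p : Fin (2 * r + 1) × Y => xL p.2 + (p.1.val : ℤ) * uL p.2)
  have hvalL : ∀ (a : Fin (2 * r + 1)) (y : Y),
      val (ρ (xL y + (a.val : ℤ) * uL y)) = xL y + (a.val : ℤ) * uL y :=
    fun a y => hval _ (Finset.mem_image.2 ⟨(a, y), Finset.mem_univ _, rfl⟩)
  have hvalR : ∀ (a : Fin (2 * r + 1)) (y : Y),
      val (ρ (xR y + (a.val : ℤ) * uR y)) = xR y + (a.val : ℤ) * uR y := by
    intro a y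
    obtain ⟨g, hg⟩ := hrel a.val a.isLt
    rw [hg, hvalL]
  obtain ⟨D, hD, hR⟩ := ram_group (A := A) (Y := Y) hG
  obtain ⟨κ, _, H⟩ := hR.pow (ι × Fin M) (Fin k)
  let eκ : κ ≃ Fin (Fintype.card κ) := Fintype.equivFin κ
  refine ⟨D * d₀, Fintype.card κ, Nat.mul_pos hD hd₀pos, fun c => ?_⟩
  obtain ⟨φ, hφ, hc⟩ := H (fun a => c (fun j => val (a (eκ.symm j))))
  let zw : (ι → Fin (2 * r + 1)) → (ι × Fin M) × Y → A :=
    fun w p => ρ (xL p.2 + ((w p.1.1).val : ℤ) * uL p.2)
  obtain ⟨l, col, hl⟩ := HJ (fun w => c (fun j => val (sub φ (zw w) (eκ.symm j))))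
  have hT : ∀ v : Fin t, ∃ T ⊆ (Finset.univ.filter fun p : ι × Fin M => l.idxFun p.1 = Sum.inr v),
      (T.card : ℤ) * β + (((Finset.univ.filter
        fun p : ι × Fin M => l.idxFun p.1 = Sum.inr v).card : ℤ) - T.card) * σ = β * (β - σ) := by
    intro v
    refine choose_slots _ (Finset.univ.filter fun i : ι => l.idxFun i = Sum.inr v).card N M β σ
      hσ0 ?_ ?_ hratio hM.symm ?_
    · obtain ⟨i, hi⟩ := l.proper v
      exact Finset.card_pos.2 ⟨i, by simp [hi]⟩
    · rw [hN]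
      exact Finset.card_le_univ _
    · have : (Finset.univ.filter fun p : ι × Fin M => l.idxFun p.1 = Sum.inr v) =
          (Finset.univ.filter fun i : ι => l.idxFun i = Sum.inr v) ×ˢ Finset.univ := by
        ext p
        simp
      rw [this, Finset.card_product]
      simp
  choose T hTsub hTcard using hT
  let U : Fin t → (ι × Fin M) × Y → ℤ := fun v p =>
    if l.idxFun p.1.1 = Sum.inr v then (if p.1 ∈ T v then uL p.2 else uR p.2) else 0
  let Z : (Fin t → Fin (2 * r + 1)) → (ι × Fin M) × Y → ℤ := fun w p =>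
    Sum.elim (fun a : Fin (2 * r + 1) => xL p.2 + (a.val : ℤ) * uL p.2)
      (fun v => if p.1 ∈ T v then xL p.2 + ((w v).val : ℤ) * uL p.2
        else xR p.2 + ((w v).val : ℤ) * uR p.2) (l.idxFun p.1.1)
  have hZval : ∀ w p, val (ρ (Z w p)) = Z w p := by
    intro w p
    simp only [Z]
    cases l.idxFun p.1.1 with
    | inl a => exact hvalL _ _
    | inr v =>
      simp only [Sum.elim_inr]
      split_ifs
      · exact hvalL _ _
      · exact hvalR _ _
  have hZcol : ∀ w, c (fun j => Sum.elim val (Z w) (φ (eκ.symm j))) = col := by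
    intro w
    rw [← hl w]
    have h1 := hc (zw (l w)) (fun p => ρ (Z w p)) (by
      intro p
      cases hp : l.idxFun p.1 with
      | inl a =>
        refine ⟨1, fun y => ?_⟩
        simp only [zw, Z, hp, Sum.elim_inl, one_smul, Combinatorics.Subspace.apply_inl hp]
      | inr v =>
        by_cases hpT : p ∈ T v
        · refine ⟨1, fun y => ?_⟩
          simp only [zw, Z, hp, Sum.elim_inr, one_smul, Combinatorics.Subspace.apply_inr hp, hpT,
            if_true]
        · obtain ⟨g, hg⟩ := hrel (w v).val (w v).isLt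
          refine ⟨g, fun y => ?_⟩
          simp only [zw, Z, hp, Sum.elim_inr, Combinatorics.Subspace.apply_inr hp, hpT,
            if_false, hg])
    refine Eq.trans ?_ h1.symm
    congr 1
    funext j
    simp only [sub]
    cases φ (eκ.symm j) with
    | inl a => rfl
    | inr p => exact (hZval w p).symm
  have hUnorm : ∀ v, ∑ p, |U v p| = d₀ := by
    intro v
    rw [Fintype.sum_prod_type, ← hd₀, ← hTcard v]
    have h1 : ∀ q : ι × Fin M, ∑ y, |U v (q, y)| =
        (if q ∈ T v then β - σ else 0) + (if l.idxFun q.1 = Sum.inr v then σ else 0) := by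
      intro q
      by_cases hq : l.idxFun q.1 = Sum.inr v
      · by_cases hqT : q ∈ T v
        · simp [U, hq, hqT, hβ]
        · simp [U, hq, hqT, hσ]
      · have hqT : q ∉ T v := fun h => hq (Finset.mem_filter.1 (hTsub v h)).2
        simp [U, hq, hqT]
    rw [Finset.sum_congr rfl fun q _ => h1 q, Finset.sum_add_distrib, ← Finset.sum_filter,
      ← Finset.sum_filter]
    simp only [Finset.sum_const, nsmul_eq_mul, Finset.filter_mem_eq_inter, Finset.univ_inter]
    ring
  let w₀ : Fin t → Fin (2 * r + 1) := fun _ => ⟨r, by omega⟩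
  refine ⟨fun v j => Sum.elim (fun _ => 0) (U v) (φ (eκ.symm j)), ?_, ?_,
    fun j => Sum.elim val (Z w₀) (φ (eκ.symm j)), ?_⟩
  · intro v v' hvv' j
    beta_reduce
    cases φ (eκ.symm j) with
    | inl a => exact Or.inl rfl
    | inr p =>
      simp only [Sum.elim_inr, U]
      by_cases hp : l.idxFun p.1.1 = Sum.inr v
      · right
        rw [if_neg]
        rw [hp]
        exact fun h => hvv' (Sum.inr.inj h)
      · left
        rw [if_neg hp]
  · intro v
    have h1 := hφ (fun p => |U v p|)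
    rw [hUnorm] at h1
    rw [← Equiv.sum_comp eκ]
    push_cast
    rw [← h1]
    refine Finset.sum_congr rfl fun j _ => ?_
    simp only [Equiv.symm_apply_apply]
    cases φ j <;> simp
  · intro μ hμ
    let w : Fin t → Fin (2 * r + 1) := fun v => ⟨(μ v + r).toNat, by
      have := abs_le.1 (hμ v)
      omega⟩
    have hw : ∀ v, ((w v).val : ℤ) = μ v + r := by
      intro v
      have := abs_le.1 (hμ v)
      simp only [w]
      omega
    rw [hZcol w₀, ← hZcol w]
    congr 1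
    funext j
    simp only [Pi.add_apply, Finset.sum_apply, Pi.smul_apply, smul_eq_mul]
    cases φ (eκ.symm j) with
    | inl a => simp
    | inr p =>
      simp only [Sum.elim_inr, Z, U]
      cases hp : l.idxFun p.1.1 with
      | inl a => simp
      | inr v =>
        simp only [Sum.elim_inr, Sum.inr.injEq, mul_ite, mul_zero, Finset.sum_ite_eq,
          Finset.mem_univ, if_true, hw, w₀]
        split_ifs <;> ring

end Pool.Agent.Lib.MP_e43eb1_co
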