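import Mathlib

set_option autoImplicit false

namespace Pool.Agent.Lib.MP_e43eb1_co

open Finset

/-- The word obtained from a template `φ` by substituting the word `z`. -/
def sub {A ι κ : Type} (φ : κ → A ⊕ ι) (z : ι → A) : κ → A := fun j => Sum.elim id z (φ j)

/-- Each variable of the template occurs `D` times (stated through sums). -/
def Deg {A ι κ : Type} [Fintype ι] [Fintype κ] (φ : κ → A ⊕ ι) (D : ℕ) : Prop :=
  ∀ f : ι → ℤ, ∑ j, Sum.elim (fun _ => (0 : ℤ)) f (φ j) = D * ∑ i, f i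

/-- The relation `E` on words is Ramsey with degree `D`. -/
def Ram {A ι : Type} [Fintype ι] (E : (ι → A) → (ι → A) → Prop) (D : ℕ) : Prop :=
  ∀ (C : Type) [Finite C], ∃ (κ : Type) (_ : Fintype κ), ∀ c : (κ → A) → C,
    ∃ φ : κ → A ⊕ ι, Deg φ D ∧ ∀ z z', E z z' → c (sub φ z) = c (sub φ z')

/-- Composition of templates. -/
def cmp {A ι ι' κ : Type} (φ : κ → A ⊕ ι') (τ : ι' → A ⊕ ι) : κ → A ⊕ ι :=
  fun j => Sum.elim Sum.inl τ (φ j)

theorem sub_cmp {A ι ι' κ : Type} (φ : κ → A ⊕ ι') (τ : ι' → A ⊕ ι) (z : ι → A) :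
    sub (cmp φ τ) z = sub φ (sub τ z) := by
  funext j
  unfold sub cmp
  cases φ j <;> rfl

theorem deg_cmp {A ι ι' κ : Type} [Fintype ι] [Fintype ι'] [Fintype κ] {φ : κ → A ⊕ ι'}
    {τ : ι' → A ⊕ ι} {D m : ℕ} (hφ : Deg φ D) (hτ : Deg τ m) : Deg (cmp φ τ) (D * m) := by
  intro f
  have h1 := hφ (fun i' => Sum.elim (fun _ => (0 : ℤ)) f (τ i'))
  rw [hτ f] at h1
  have h2 : ∀ j, Sum.elim (fun _ => (0 : ℤ)) f (cmp φ τ j) =
      Sum.elim (fun _ => (0 : ℤ)) (fun i' => Sum.elim (fun _ => (0 : ℤ)) f (τ i')) (φ j) := by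
    intro j
    unfold cmp
    cases φ j <;> rfl
  rw [Finset.sum_congr rfl (fun j _ => h2 j), h1]
  push_cast
  ring

theorem Ram.mono {A ι : Type} [Fintype ι] {E E' : (ι → A) → (ι → A) → Prop} {D : ℕ}
    (h : Ram E D) (hE : ∀ z z', E' z z' → E z z') : Ram E' D := by
  intro C _
  obtain ⟨κ, hκ, H⟩ := h C
  refine ⟨κ, hκ, fun c => ?_⟩
  obtain ⟨φ, hφ, hc⟩ := H c
  exact ⟨φ, hφ, fun z z' hz => hc z z' (hE z z' hz)⟩

theorem ram_eq {A ι : Type} [Fintype ι] : Ram (fun z z' : ι → A => z = z') 1 := by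
  intro C _
  refine ⟨ι, inferInstance, fun c => ⟨Sum.inr, ?_, ?_⟩⟩
  · intro f
    simp
  · rintro z z' rfl
    rfl

theorem Ram.reindex {A ι ι' : Type} [Fintype ι] [Fintype ι'] {E : (ι → A) → (ι → A) → Prop}
    {D : ℕ} (h : Ram E D) (e : ι ≃ ι') :
    Ram (fun z z' : ι' → A => E (fun i => z (e i)) (fun i => z' (e i))) D := by
  intro C _
  obtain ⟨κ, hκ, H⟩ := h C
  refine ⟨κ, hκ, fun c => ?_⟩
  obtain ⟨φ, hφ, hc⟩ := H c
  have hτ : Deg (fun i => (Sum.inr (e i) : A ⊕ ι')) 1 := by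
    intro f
    simp only [Sum.elim_inr, Nat.cast_one, one_mul]
    exact Equiv.sum_comp e f
  refine ⟨cmp φ (fun i => Sum.inr (e i)), by simpa using deg_cmp hφ hτ, ?_⟩
  intro z z' hz
  rw [sub_cmp, sub_cmp]
  exact hc _ _ hz

theorem Ram.sum {A ι₁ ι₂ : Type} [Finite A] [Fintype ι₁] [Fintype ι₂]
    {E₁ : (ι₁ → A) → (ι₁ → A) → Prop} {E₂ : (ι₂ → A) → (ι₂ → A) → Prop} {D : ℕ}
    (h₁ : Ram E₁ D) (h₂ : Ram E₂ D) :
    Ram (fun z z' : ι₁ ⊕ ι₂ → A => E₁ (fun i => z (Sum.inl i)) (fun i => z' (Sum.inl i)) ∧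
      E₂ (fun i => z (Sum.inr i)) (fun i => z' (Sum.inr i))) D := by
  intro C _
  obtain ⟨κ₂, hκ₂, H₂⟩ := h₂ ((ι₁ → A) → C)
  obtain ⟨κ₁, hκ₁, H₁⟩ := h₁ ((κ₂ → A) → C)
  refine ⟨κ₁ ⊕ κ₂, inferInstance, fun c => ?_⟩
  obtain ⟨φ₁, hφ₁, hc₁⟩ := H₁ (fun a b => c (Sum.elim a b))
  obtain ⟨φ₂, hφ₂, hc₂⟩ := H₂ (fun b z => c (Sum.elim (sub φ₁ z) b))
  refine ⟨Sum.elim (fun j => Sum.map id Sum.inl (φ₁ j)) (fun j => Sum.map id Sum.inr (φ₂ j)),
    ?_, ?_⟩
  · intro f
    rw [Fintype.sum_sum_type, Fintype.sum_sum_type, mul_add, ← hφ₁ (fun i => f (Sum.inl i)),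
      ← hφ₂ (fun i => f (Sum.inr i))]
    congr 1
    · refine Finset.sum_congr rfl fun j _ => ?_
      simp only [Sum.elim_inl]
      cases φ₁ j <;> rfl
    · refine Finset.sum_congr rfl fun j _ => ?_
      simp only [Sum.elim_inr]
      cases φ₂ j <;> rfl
  · have key : ∀ z : ι₁ ⊕ ι₂ → A, sub (Sum.elim (fun j => Sum.map id Sum.inl (φ₁ j))
        (fun j => Sum.map id Sum.inr (φ₂ j))) z =
        Sum.elim (sub φ₁ (fun i => z (Sum.inl i))) (sub φ₂ (fun i => z (Sum.inr i))) := by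
      intro z
      funext j
      rcases j with j | j
      · simp only [sub, Sum.elim_inl]
        cases φ₁ j <;> rfl
      · simp only [sub, Sum.elim_inr]
        cases φ₂ j <;> rfl
    rintro z z' ⟨hz₁, hz₂⟩
    rw [key, key]
    have e1 := congrFun (hc₁ _ _ hz₁) (sub φ₂ (fun i => z (Sum.inr i)))
    have e2 := congrFun (hc₂ _ _ hz₂) (fun i => z' (Sum.inl i))
    exact e1.trans e2

/-- Splitting off the first slot. -/
def splitEquiv (N : ℕ) (ι : Type) : ι ⊕ (Fin N × ι) ≃ Fin (N + 1) × ι where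
  toFun := Sum.elim (fun i => (0, i)) (fun p => (p.1.succ, p.2))
  invFun := fun p => Fin.cases (Sum.inl p.2) (fun q => Sum.inr (q, p.2)) p.1
  left_inv := by
    rintro (i | ⟨q, i⟩) <;> simp
  right_inv := by
    rintro ⟨p, i⟩
    induction p using Fin.cases <;> simp

theorem Ram.powFin {A ι : Type} [Finite A] [Fintype ι] {E : (ι → A) → (ι → A) → Prop} {D : ℕ}
    (h : Ram E D) (N : ℕ) :
    Ram (fun z z' : Fin N × ι → A => ∀ p, E (fun i => z (p, i)) (fun i => z' (p, i))) D := by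
  induction N with
  | zero =>
    intro C _
    refine ⟨Empty, inferInstance, fun c => ⟨Empty.elim, ?_, ?_⟩⟩
    · intro f
      simp
    · intro z z' _
      congr 1
      funext j
      exact j.elim
  | succ N ih =>
    refine ((h.sum ih).reindex (splitEquiv N ι)).mono ?_
    intro z z' hz
    exact ⟨hz 0, fun p => hz p.succ⟩

theorem Ram.pow {A ι : Type} [Finite A] [Fintype ι] {E : (ι → A) → (ι → A) → Prop} {D : ℕ}
    (h : Ram E D) (P : Type) [Fintype P] :
    Ram (fun z z' : P × ι → A => ∀ p, E (fun i => z (p, i)) (fun i => z' (p, i))) D := by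
  refine ((h.powFin (Fintype.card P)).reindex
    (Equiv.prodCongr (Fintype.equivFin P).symm (Equiv.refl ι))).mono ?_
  intro z z' hz p
  exact hz _

/-- Compatibility of a relation with a permutation `b` that has order two modulo it. -/
structure Compat {A ι : Type} (b : Equiv.Perm ι) (E : (ι → A) → (ι → A) → Prop) : Prop where
  equiv : Equivalence E
  inv : ∀ z z', E z z' → E (fun i => z (b i)) (fun i => z' (b i))
  sq : ∀ z, E z (fun i => z (b (b i)))

theorem merge_one {A ι : Type} [Finite A] [Fintype ι] {b : Equiv.Perm ι}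
    {E : (ι → A) → (ι → A) → Prop} {D : ℕ} (hE : Compat b E) (h : Ram E D) (s : ι → A) :
    ∃ E' : (ι → A) → (ι → A) → Prop, Compat b E' ∧ Ram E' (D * 2) ∧
      (∀ z z', E z z' → E' z z') ∧ E' s (fun i => s (b i)) := by
  classical
  let F : (ι → A) → (ι → A) → Prop := fun z z' => E z z' ∨ (z = s ∧ z' = fun i => s (b i))
  refine ⟨Relation.EqvGen F, ⟨Relation.EqvGen.is_equivalence F, ?_, ?_⟩, ?_, ?_, ?_⟩
  · intro z z' hz
    induction hz with
    | rel x y hxy =>
      rcases hxy with hxy | ⟨rfl, rfl⟩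
      · exact Relation.EqvGen.rel _ _ (Or.inl (hE.inv _ _ hxy))
      · refine Relation.EqvGen.trans _ x _ ?_ ?_
        · exact Relation.EqvGen.symm _ _ (Relation.EqvGen.rel _ _ (Or.inr ⟨rfl, rfl⟩))
        · exact Relation.EqvGen.rel _ _ (Or.inl (hE.sq x))
    | refl x => exact Relation.EqvGen.refl _
    | symm x y _ ih => exact Relation.EqvGen.symm _ _ ih
    | trans x y w _ _ ih1 ih2 => exact Relation.EqvGen.trans _ _ _ ih1 ih2
  · intro z
    exact Relation.EqvGen.rel _ _ (Or.inl (hE.sq z))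
  · intro C _
    have : Fintype C := Fintype.ofFinite C
    obtain ⟨κ, hκ, H⟩ := (h.pow (Option C)) C
    refine ⟨κ, hκ, fun c => ?_⟩
    obtain ⟨φ, hφ, hc⟩ := H c
    let V : Option C → (Option C × ι → A) := fun p x => if x.1 = p then s (b x.2) else s x.2
    obtain ⟨p, q, hpq, hV⟩ := Fintype.exists_ne_map_eq_of_card_lt
      (fun p : Option C => c (sub φ (V p))) (by simp)
    let τ : Option C × ι → A ⊕ ι := fun x =>
      if x.1 = p then Sum.inr x.2 else if x.1 = q then Sum.inr (b x.2) else Sum.inl (s x.2)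
    have hτ : Deg τ 2 := by
      intro f
      rw [Fintype.sum_prod_type]
      have h1 : ∀ p' : Option C, ∑ i, Sum.elim (fun _ => (0 : ℤ)) f (τ (p', i)) =
          (if p' = p then ∑ i, f i else 0) + (if p' = q then ∑ i, f i else 0) := by
        intro p'
        by_cases h1 : p' = p
        · have h2 : p' ≠ q := fun h2 => hpq (h1.symm.trans h2)
          simp [τ, h1, hpq]
        · by_cases h2 : p' = q
          · have h3 : q ≠ p := fun h3 => hpq h3.symm
            simp only [τ, h2, h3, if_true, if_false, Sum.elim_inr, zero_add]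
            exact Equiv.sum_comp b f
          · simp [τ, h1, h2]
      rw [Finset.sum_congr rfl (fun p' _ => h1 p'), Finset.sum_add_distrib]
      simp only [Finset.sum_ite_eq', Finset.mem_univ, if_true]
      push_cast
      ring
    have hsub : ∀ z : ι → A, ∀ p' i, sub τ z (p', i) =
        if p' = p then z i else if p' = q then z (b i) else s i := by
      intro z p' i
      simp only [sub, τ]
      split_ifs <;> rfl
    refine ⟨cmp φ τ, deg_cmp hφ hτ, ?_⟩
    intro z z' hz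
    rw [sub_cmp, sub_cmp]
    induction hz with
    | rel x y hxy =>
      rcases hxy with hxy | ⟨rfl, rfl⟩
      · apply hc
        intro p'
        simp only [hsub]
        by_cases h1 : p' = p
        · simpa [h1] using hxy
        · by_cases h2 : p' = q
          · have h3 : q ≠ p := fun h3 => hpq h3.symm
            simpa [h2, h3] using hE.inv _ _ hxy
          · simpa [h1, h2] using hE.equiv.refl s
      · have e1 : sub τ x = V q := by
          funext ⟨p', i⟩
          rw [hsub]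
          simp only [V]
          by_cases h1 : p' = p
          · have h2 : p' ≠ q := fun h2 => hpq (h1.symm.trans h2)
            simp [h1, hpq]
          · simp [h1]
        rw [e1, ← hV]
        apply hc
        intro p'
        simp only [hsub, V]
        by_cases h1 : p' = p
        · simpa [h1] using hE.equiv.refl _
        · by_cases h2 : p' = q
          · have h3 : q ≠ p := fun h3 => hpq h3.symm
            simpa [h2, h3] using hE.sq x
          · simpa [h1, h2] using hE.equiv.refl x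
    | refl x => rfl
    | symm x y _ ih => exact ih.symm
    | trans x y w _ _ ih1 ih2 => exact ih1.trans ih2
  · intro z z' hz
    exact Relation.EqvGen.rel _ _ (Or.inl hz)
  · exact Relation.EqvGen.rel _ _ (Or.inr ⟨rfl, rfl⟩)

theorem merge_all {A ι : Type} [Finite A] [Fintype ι] {b : Equiv.Perm ι}
    {E : (ι → A) → (ι → A) → Prop} {D : ℕ} (hE : Compat b E) (h : Ram E D) (hD : 0 < D) :
    ∃ (E' : (ι → A) → (ι → A) → Prop) (D' : ℕ), 0 < D' ∧ Equivalence E' ∧ Ram E' D' ∧
      (∀ z z', E z z' → E' z z') ∧ ∀ s, E' s (fun i => s (b i)) := by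
  classical
  have key : ∀ S : Finset (ι → A), ∃ (E' : (ι → A) → (ι → A) → Prop) (D' : ℕ), 0 < D' ∧
      Compat b E' ∧ Ram E' D' ∧ (∀ z z', E z z' → E' z z') ∧
      ∀ s ∈ S, E' s (fun i => s (b i)) := by
    intro S
    induction S using Finset.induction_on with
    | empty => exact ⟨E, D, hD, hE, h, fun _ _ h => h, by simp⟩
    | insert s S _ ih =>
      obtain ⟨E', D', hD', hE', hR, hle, hS⟩ := ih
      obtain ⟨E'', hE'', hR', hle', hs⟩ := merge_one hE' hR s
      refine ⟨E'', D' * 2, by omega, hE'', hR', fun z z' hz => hle' _ _ (hle _ _ hz), ?_⟩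
      intro t ht
      rcases Finset.mem_insert.1 ht with rfl | ht
      · exact hs
      · exact hle' _ _ (hS t ht)
  have : Fintype A := Fintype.ofFinite A
  obtain ⟨E', D', hD', hE', hR, hle, hS⟩ := key Finset.univ
  exact ⟨E', D', hD', hE'.equiv, hR, hle, fun s => hS s (Finset.mem_univ _)⟩

/-- The orbit relation of a subgroup on words. -/
def Orb {A Y G : Type} [Group G] [MulAction G Y] (H : Subgroup G) (z z' : Y → A) : Prop :=
  ∃ g ∈ H, ∀ y, z' y = z (g • y)

theorem ram_step {A Y G : Type} [Finite A] [Fintype Y] [Group G] [Finite G] [MulAction G Y]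
    {H K : Subgroup G} (hHK : H ≤ K) (hc : Nat.card K = 2 * Nat.card H) {D : ℕ} (hD : 0 < D)
    (h : Ram (Orb (A := A) (Y := Y) H) D) :
    ∃ D', 0 < D' ∧ Ram (Orb (A := A) (Y := Y) K) D' := by
  have hidx : (H.subgroupOf K).index = 2 := by
    have h1 := (H.subgroupOf K).index_mul_card
    have h2 : Nat.card (H.subgroupOf K) = Nat.card H :=
      Nat.card_congr (Subgroup.subgroupOfEquivOfLe hHK).toEquiv
    rw [h2, hc] at h1
    exact Nat.eq_of_mul_eq_mul_right Nat.card_pos h1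
  have hmul : ∀ a ∈ K, ∀ a' ∈ K, (a * a' ∈ H ↔ (a ∈ H ↔ a' ∈ H)) := by
    intro a ha a' ha'
    have := Subgroup.mul_mem_iff_of_index_two hidx (a := ⟨a, ha⟩) (b := ⟨a', ha'⟩)
    simpa [Subgroup.mem_subgroupOf] using this
  obtain ⟨b, hbK, hbH⟩ : ∃ b ∈ K, b ∉ H := by
    by_contra hne
    push Not at hne
    have : K = H := le_antisymm hne hHK
    rw [this] at hc
    have := Nat.card_pos (α := H)
    omega
  have hE : Compat (A := A) (MulAction.toPerm b : Equiv.Perm Y) (Orb H) := by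
    refine ⟨⟨?_, ?_, ?_⟩, ?_, ?_⟩
    · intro z
      exact ⟨1, H.one_mem, by simp⟩
    · rintro z z' ⟨g, hg, hz⟩
      refine ⟨g⁻¹, H.inv_mem hg, fun y => ?_⟩
      rw [hz, smul_inv_smul]
    · rintro z z' z'' ⟨g, hg, hz⟩ ⟨g', hg', hz'⟩
      refine ⟨g * g', H.mul_mem hg hg', fun y => ?_⟩
      rw [hz', hz, mul_smul]
    · rintro z z' ⟨g, hg, hz⟩
      refine ⟨b⁻¹ * (g * b), ?_, fun y => ?_⟩
      · rw [hmul _ (K.inv_mem hbK) _ (K.mul_mem (hHK hg) hbK), hmul _ (hHK hg) _ hbK]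
        simp [hg, hbH]
      · simp [hz, mul_smul]
    · intro z
      refine ⟨b * b, ?_, fun y => ?_⟩
      · rw [hmul _ hbK _ hbK]
      · simp [mul_smul]
  obtain ⟨E', D', hD', hE', hR, hle, hS⟩ := merge_all hE h hD
  refine ⟨D', hD', hR.mono ?_⟩
  rintro z z' ⟨g, hg, hz⟩
  by_cases hgH : g ∈ H
  · exact hle _ _ ⟨g, hgH, hz⟩
  · refine hE'.trans (hS z) (hle _ _ ⟨b⁻¹ * g, ?_, fun y => ?_⟩)
    · rw [hmul _ (K.inv_mem hbK) _ hg]
      simp [hgH, hbH]
    · simp [hz, mul_smul]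

/-- The orbit relation of a finite group of order a power of two is Ramsey. -/
theorem ram_group {A Y G : Type} [Finite A] [Fintype Y] [Group G] [Finite G] [MulAction G Y]
    {e : ℕ} (hG : Nat.card G = 2 ^ e) :
    ∃ D, 0 < D ∧ Ram (fun z z' : Y → A => ∃ g : G, ∀ y, z' y = z (g • y)) D := by
  have : Fact (Nat.Prime 2) := ⟨Nat.prime_two⟩
  have key : ∀ m ≤ e, ∃ H : Subgroup G, Nat.card H = 2 ^ m ∧
      ∃ D, 0 < D ∧ Ram (Orb (A := A) (Y := Y) H) D := by
    intro m
    induction m with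
    | zero =>
      intro _
      refine ⟨⊥, by simp, 1, one_pos, ram_eq.mono ?_⟩
      rintro z z' ⟨g, hg, hz⟩
      rw [Subgroup.mem_bot] at hg
      subst hg
      funext y
      simp [hz]
    | succ m ih =>
      intro hm
      obtain ⟨H, hH, D, hD, hR⟩ := ih (by omega)
      obtain ⟨K, hK, hHK⟩ := Sylow.exists_subgroup_card_pow_succ (p := 2) (n := m)
        (by rw [hG]; exact pow_dvd_pow 2 hm) hH
      exact ⟨K, hK, ram_step hHK (by rw [hK, hH, pow_succ']) hD hR⟩
  obtain ⟨H, hH, D, hD, hR⟩ := key e le_rfl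
  have htop : H = ⊤ := Subgroup.eq_top_of_card_eq H (by rw [hH, hG])
  refine ⟨D, hD, hR.mono ?_⟩
  rintro z z' ⟨g, hz⟩
  exact ⟨g, by simp [htop], hz⟩

end Pool.Agent.Lib.MP_e43eb1_co
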